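import Pool.Agent.Helper427.Tri.Defs

open Set Topology Metric
open scoped ComplexConjugate

namespace Pool.Agent.Helper427.Tri

theorem homotopy_principle {Y T : Type*} [TopologicalSpace Y] [CompactSpace Y]
    [PseudoMetricSpace T] (P : C(Y, T) → Prop) {δ : ℝ} (hδ : 0 < δ)
    (hP : ∀ f f' : C(Y, T), P f → (∀ y, dist (f y) (f' y) < δ) → P f')
    (F : C(unitInterval × Y, T)) (f0 f1 : C(Y, T)) (h0 : ∀ y, F (0, y) = f0 y)
    (h1 : ∀ y, F (1, y) = f1 y) (hf : P f0) : P f1 := by
  have hball : ∀ f f' : C(Y, T), P f → dist f f' < δ → P f' := by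
    intro f f' hf hd
    exact hP f f' hf fun y => lt_of_le_of_lt (ContinuousMap.dist_apply_le_dist y) hd
  have hopen : IsOpen {f : C(Y, T) | P f} := by
    rw [Metric.isOpen_iff]
    intro f hf
    exact ⟨δ, hδ, fun f' hf' => hball f f' hf (by rw [dist_comm]; exact hf')⟩
  have hclosed : IsClosed {f : C(Y, T) | P f} := by
    rw [← isOpen_compl_iff, Metric.isOpen_iff]
    intro f hf
    exact ⟨δ, hδ, fun f' hf' h => hf (hball f' f h hf')⟩
  let G : C(unitInterval, C(Y, T)) := F.curry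
  have hcl : IsClopen (G ⁻¹' {f : C(Y, T) | P f}) :=
    ⟨hclosed.preimage G.continuous, hopen.preimage G.continuous⟩
  have e0 : G 0 = f0 := by ext y; exact h0 y
  have e1 : G 1 = f1 := by ext y; exact h1 y
  have hne : (G ⁻¹' {f : C(Y, T) | P f}).Nonempty := ⟨0, by
    show P (G 0)
    rw [e0]; exact hf⟩
  have := hcl.eq_univ hne
  have h : (1 : unitInterval) ∈ G ⁻¹' {f : C(Y, T) | P f} := by rw [this]; trivial
  have h' : P (G 1) := h
  rwa [e1] at h'

/-! ### logarithms of circle valued maps -/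

/-- The circle valued map `c` has a continuous real logarithm. -/
def HasLog {Y : Type*} [TopologicalSpace Y] (c : C(Y, Circle)) : Prop :=
  ∃ r : C(Y, ℝ), ∀ y, c y = Circle.exp (r y)

theorem circle_mem_slitPlane {z : Circle} (h : z ≠ -1) : (z : ℂ) ∈ Complex.slitPlane := by
  rw [Complex.mem_slitPlane_iff]
  by_contra hcon
  push Not at hcon
  obtain ⟨h1, h2⟩ := hcon
  apply h
  have hn : ‖(z : ℂ)‖ = 1 := Circle.norm_coe z
  have hsq : (z : ℂ).re ^ 2 + (z : ℂ).im ^ 2 = 1 := by
    have := Complex.sq_norm (z : ℂ)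
    rw [hn, Complex.normSq_apply] at this
    nlinarith
  rw [h2] at hsq
  have hre : (z : ℂ).re = -1 := by nlinarith
  apply Circle.ext
  apply Complex.ext
  · simpa using hre
  · simpa using h2

theorem HasLog.perturb {Y : Type*} [TopologicalSpace Y] (c c' : C(Y, Circle)) (h : HasLog c)
    (hd : ∀ y, dist (c y) (c' y) < 2) : HasLog c' := by
  obtain ⟨r, hr⟩ := h
  have hne : ∀ y, c' y / c y ≠ -1 := by
    intro y hy
    have h1 : c' y = - c y := by
      rw [div_eq_iff_eq_mul] at hy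
      rw [hy]
      simp
    have h2 := hd y
    rw [h1] at h2
    have : dist (c y) (-c y) = 2 := by
      show dist (c y : ℂ) ((-c y : Circle) : ℂ) = 2
      rw [Complex.dist_eq]
      have : ((c y : Circle) : ℂ) - ((-c y : Circle) : ℂ) = 2 * (c y : ℂ) := by
        rw [Circle.coe_neg]; ring
      rw [this, norm_mul, Circle.norm_coe]
      norm_num
    rw [this] at h2
    exact lt_irrefl _ h2
  have hcont : Continuous fun y => Complex.arg ((c' y / c y : Circle) : ℂ) := by
    rw [continuous_iff_continuousAt]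
    intro y
    have h1 : ContinuousAt (fun y => ((c' y / c y : Circle) : ℂ)) y := by
      apply Continuous.continuousAt
      exact continuous_subtype_val.comp (c'.continuous.div' c.continuous)
    exact ContinuousAt.comp (f := fun y => ((c' y / c y : Circle) : ℂ)) (g := Complex.arg)
      (Complex.continuousAt_arg (circle_mem_slitPlane (hne y))) h1
  refine ⟨⟨fun y => r y + Complex.arg ((c' y / c y : Circle) : ℂ), by fun_prop⟩, ?_⟩
  intro y
  show c' y = Circle.exp (r y + Complex.arg ((c' y / c y : Circle) : ℂ))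
  rw [Circle.exp_add, ← hr y, Circle.exp_arg]
  simp

theorem HasLog.homotopy {Y : Type*} [TopologicalSpace Y] [CompactSpace Y]
    (F : C(unitInterval × Y, Circle)) (f0 f1 : C(Y, Circle)) (h0 : ∀ y, F (0, y) = f0 y)
    (h1 : ∀ y, F (1, y) = f1 y) (hf : HasLog f0) : HasLog f1 :=
  homotopy_principle HasLog (by norm_num : (0 : ℝ) < 2) HasLog.perturb F f0 f1 h0 h1 hf

theorem HasLog.homotopy' {Y : Type*} [TopologicalSpace Y] [CompactSpace Y]
    (F : C(unitInterval × Y, Circle)) (f0 f1 : C(Y, Circle)) (h0 : ∀ y, F (0, y) = f0 y)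
    (h1 : ∀ y, F (1, y) = f1 y) (hf : HasLog f1) : HasLog f0 := by
  refine HasLog.homotopy (F.comp ⟨fun p => (unitInterval.symm p.1, p.2), by fun_prop⟩) f1 f0
    ?_ ?_ hf
  · intro y; simp [h1]
  · intro y; simp [h0]

theorem HasLog.comp {Y Z : Type*} [TopologicalSpace Y] [TopologicalSpace Z] {c : C(Y, Circle)}
    (h : HasLog c) (g : C(Z, Y)) : HasLog (c.comp g) := by
  obtain ⟨r, hr⟩ := h
  exact ⟨r.comp g, fun z => hr (g z)⟩

theorem HasLog.mul {Y : Type*} [TopologicalSpace Y] {c c' : C(Y, Circle)}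
    (h : HasLog c) (h' : HasLog c') : HasLog (c * c') := by
  obtain ⟨r, hr⟩ := h
  obtain ⟨r', hr'⟩ := h'
  refine ⟨r + r', fun y => ?_⟩
  show c y * c' y = Circle.exp (r y + r' y)
  rw [Circle.exp_add, hr, hr']

theorem HasLog.inv {Y : Type*} [TopologicalSpace Y] {c : C(Y, Circle)}
    (h : HasLog c) : HasLog c⁻¹ := by
  obtain ⟨r, hr⟩ := h
  refine ⟨-r, fun y => ?_⟩
  show (c y)⁻¹ = Circle.exp (-(r y))
  rw [Circle.exp_neg, hr]

theorem HasLog.const {Y : Type*} [TopologicalSpace Y] (z : Circle) :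
    HasLog (ContinuousMap.const Y z) := by
  refine ⟨ContinuousMap.const Y (Complex.arg z), fun y => ?_⟩
  show z = Circle.exp (Complex.arg z)
  rw [Circle.exp_arg]

/-! ### lines -/

/-- The complex coordinate of a point of the sphere. -/
noncomputable def wS (s : S2) : ℂ := ⟨s.1 0, s.1 1⟩

/-- The height of a point of the sphere. -/
noncomputable def hS (s : S2) : ℝ := s.1 2

theorem wS_cont : Continuous wS := by
  unfold wS
  have h0 : Continuous fun s : S2 => (s.1 0 : ℝ) := by fun_prop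
  have h1 : Continuous fun s : S2 => (s.1 1 : ℝ) := by fun_prop
  have : (fun s : S2 => (⟨s.1 0, s.1 1⟩ : ℂ)) = fun s : S2 => ((s.1 0 : ℝ) : ℂ)
      + ((s.1 1 : ℝ) : ℂ) * Complex.I := by
    funext s
    apply Complex.ext <;> simp
  rw [this]
  fun_prop

theorem hS_cont : Continuous hS := by
  unfold hS
  fun_prop

theorem sph_eq (s : S2) : (s.1 0) ^ 2 + (s.1 1) ^ 2 + (s.1 2) ^ 2 = 1 := by
  have h : ‖(s : EuclideanSpace ℝ (Fin 3))‖ = 1 := by
    have := s.2
    rwa [mem_sphere_zero_iff_norm] at this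
  have h2 := EuclideanSpace.norm_eq (s : EuclideanSpace ℝ (Fin 3))
  rw [h] at h2
  have h3 : Real.sqrt (∑ i, ‖(s : EuclideanSpace ℝ (Fin 3)) i‖ ^ 2) = 1 := h2.symm
  rw [Real.sqrt_eq_one] at h3
  simpa [Fin.sum_univ_three, Real.norm_eq_abs, sq_abs] using h3

theorem wS_hS (s : S2) : (wS s).re ^ 2 + (wS s).im ^ 2 + hS s ^ 2 = 1 := sph_eq s

/-- `(a, b)` lies on the complex line attached to `s` (the Hopf line). -/
def Line (s : S2) (a b : ℂ) : Prop :=
  (1 - (hS s : ℂ)) * a = conj (wS s) * b ∧ wS s * a = (1 + (hS s : ℂ)) * b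

/-- `f` lifts through the Hopf fibration. -/
def HasLift {Y : Type*} [TopologicalSpace Y] (f : C(Y, S2)) : Prop :=
  ∃ a b : C(Y, ℂ), ∀ y, ‖a y‖ ^ 2 + ‖b y‖ ^ 2 = 1 ∧ Line (f y) (a y) (b y)

end Pool.Agent.Helper427.Tri
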