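import Mathlib

open Set Topology Metric
open scoped ContDiff

namespace Pool.Agent.Helper427.Tri

/-! ## The manifold `S¹ × S¹ × S²` -/

/-- The unit two-sphere. -/
abbrev S2 : Type := Metric.sphere (0 : EuclideanSpace ℝ (Fin 3)) 1

/-- The closed orientable four-manifold `S¹ × S¹ × S²`. -/
def X : Type := Circle × Circle × S2

noncomputable instance : TopologicalSpace X := inferInstanceAs (TopologicalSpace (Circle × Circle × S2))

/-- The coordinates of a point of the sphere. -/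
noncomputable def s2coord (s : S2) (i : Fin 3) : ℝ := s.1 i

/-- The inclusion of `S¹ × S¹ × S²` in `ℂ × ℂ × ℝ × ℝ × ℝ` as a smooth submanifold. -/
noncomputable def coords (x : X) : ℂ × ℂ × ℝ × ℝ × ℝ :=
  (x.1, x.2.1, s2coord x.2.2 0, s2coord x.2.2 1, s2coord x.2.2 2)

/-! ## The standard handlebodies and surfaces -/

/-- The defining polynomial of a round disc with `k` round holes: the big disc has centre
`(2 (k + 1), 0)` and radius `2 k + 1`, the holes have radius one and centres `(4, 0)`, `(8, 0)`,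
..., `(4 k, 0)`. It is nonpositive exactly on the closed disc with `k` open holes. -/
noncomputable def planar (k : ℕ) (x y : ℝ) : ℝ :=
  ((x - 2 * (k + 1)) ^ 2 + y ^ 2 - (2 * k + 1) ^ 2) *
    ∏ j ∈ Finset.range k, ((x - 4 * (j + 1)) ^ 2 + y ^ 2 - 1)

/-- The standard handlebody with `k` handles of dimension `2 + dim Z`: for `Z = ℝ` the three
dimensional handlebody of genus `k`, for `Z = ℂ` the boundary connected sum of `k` copies of
`S¹ × B³`. -/
def handle (Z : Type*) [NormedAddCommGroup Z] (k : ℕ) : Set (ℝ × ℝ × Z) :=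
  {p | planar k p.1 p.2.1 + ‖p.2.2‖ ^ 2 ≤ 0}

/-- The standard closed surface of genus `g` in `ℝ × ℝ × ℝ`, the boundary of `handle ℝ g`. -/
def surf (g : ℕ) : Set (ℝ × ℝ × ℝ) := {p | planar g p.1 p.2.1 + ‖p.2.2‖ ^ 2 = 0}

/-- The polynomial defining `surf g` has nonzero derivative at each point of `surf g`. -/
def RegularSurf (g : ℕ) : Prop :=
  ∀ p ∈ surf g, fderiv ℝ (fun q : ℝ × ℝ × ℝ => planar g q.1 q.2.1 + ‖q.2.2‖ ^ 2) p ≠ 0

/-! ## Embedded surfaces in `X` -/

/-- `φ` is a smooth injective immersion on the open set `U`. -/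
def SmoothEmbOn (φ : ℝ × ℝ × ℝ → X) (U : Set (ℝ × ℝ × ℝ)) : Prop :=
  IsOpen U ∧ ContDiffOn ℝ ∞ (fun p => coords (φ p)) U ∧ InjOn φ U ∧
    ∀ p ∈ U, Function.Injective (fderiv ℝ (fun p => coords (φ p)) p)

/-- `S` is the boundary of a smoothly embedded handlebody of genus `g` in `X`. -/
def BoundsHandlebody (g : ℕ) (S : Set X) : Prop :=
  ∃ (φ : ℝ × ℝ × ℝ → X) (U : Set (ℝ × ℝ × ℝ)), handle ℝ g ⊆ U ∧ SmoothEmbOn φ U ∧ φ '' surf g = S

/-- At each base point in `S`, every loop in `X` is homotopic to a loop in `S`. -/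
def PiOneOnto (S : Set X) : Prop :=
  ∀ x ∈ S, ∀ γ : Path x x, ∃ δ : Path x x, (∀ t, δ t ∈ S) ∧ γ.Homotopic δ

/-! ## Trisections -/

/-- A topological weakening of the notion of a trisection of type `(g; k 0, k 1, k 2)`. -/
structure IsTrisection {M : Type*} [TopologicalSpace M] (g : ℕ) (k : Fin 3 → ℕ)
    (Y : Fin 3 → Set M) : Prop where
  cover : ⋃ i, Y i = univ
  disj : ∀ i j, i ≠ j → Disjoint (interior (Y i)) (interior (Y j))
  sector : ∀ i, Nonempty (Y i ≃ₜ handle ℂ (k i))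
  pair : ∀ i j, i ≠ j → Nonempty ((Y i ∩ Y j : Set M) ≃ₜ handle ℝ g)
  core : Nonempty ((⋂ i, Y i : Set M) ≃ₜ surf g)

end Pool.Agent.Helper427.Tri
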