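import Pool.Agent.Helper427.Tri.NoTri

open Set Topology Metric Module
open scoped Real ComplexConjugate Manifold ContDiff

set_option linter.unusedSectionVars false

namespace Pool.Agent.Helper427.Tri

attribute [local instance] finrank_real_complex_fact'

/-- `S¹ × S¹ × S²`. -/
abbrev X4 : Type := Circle × Circle × S2

/-- the model with corners of `S¹ × S¹ × S²` -/
noncomputable abbrev I4 := (𝓡 1).prod ((𝓡 1).prod (𝓡 2))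

/-- the phase of a complex number -/
noncomputable def ph (z : ℂ) : Circle := Circle.exp (Complex.arg z)

theorem ph_coe {z : ℂ} (h : z ≠ 0) : (ph z : ℂ) = z / ‖z‖ := exp_arg_coe h

theorem smooth_phase {f : ℝ × ℝ × ℝ → ℂ} (hf : ContDiff ℝ ∞ f) {p : ℝ × ℝ × ℝ} (hp : f p ≠ 0) :
    ContMDiffAt 𝓘(ℝ, ℝ × ℝ × ℝ) (𝓡 1) ∞ (fun q => ph (f q)) p := by
  let U : TopologicalSpace.Opens (ℝ × ℝ × ℝ) :=
    ⟨{q | f q ≠ 0}, isOpen_ne_fun hf.continuous continuous_const⟩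
  have h1 : ContMDiff 𝓘(ℝ, ℝ × ℝ × ℝ) 𝓘(ℝ, ℂ) ∞ (fun q : U => (‖f q‖⁻¹ : ℝ) • f q) := by
    intro q
    have h2 : ContMDiffAt 𝓘(ℝ, ℝ × ℝ × ℝ) 𝓘(ℝ, ℂ) ∞
        (fun q : ℝ × ℝ × ℝ => (‖f q‖⁻¹ : ℝ) • f q) q := by
      apply ContDiffAt.contMDiffAt
      have hne : f q ≠ 0 := q.2
      have hn : ContDiffAt ℝ ∞ (fun q => ‖f q‖) (q : ℝ × ℝ × ℝ) := hf.contDiffAt.norm ℝ hne
      exact (hn.inv (norm_ne_zero_iff.mpr hne)).smul hf.contDiffAt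
    exact contMDiffAt_subtype_iff.mpr h2
  have hmem : ∀ q : U, (‖f q‖⁻¹ : ℝ) • f q ∈ sphere (0 : ℂ) 1 := by
    intro q
    have hne : f q ≠ 0 := q.2
    rw [mem_sphere_zero_iff_norm, norm_smul, norm_inv, norm_norm]
    exact inv_mul_cancel₀ (norm_ne_zero_iff.mpr hne)
  have h3 := ContMDiff.codRestrict_sphere (n := 1) h1 hmem
  have h4 : ContMDiff 𝓘(ℝ, ℝ × ℝ × ℝ) (𝓡 1) ∞ (fun q : U => (ph (f q) : Circle)) := by
    have e : (fun q : U => (ph (f q) : Circle))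
        = (Set.codRestrict (fun q : U => (‖f q‖⁻¹ : ℝ) • f q) _ hmem : U → sphere (0 : ℂ) 1) := by
      funext q
      apply Subtype.ext
      show (ph (f q) : ℂ) = (‖f q‖⁻¹ : ℝ) • f q
      rw [ph_coe q.2, Complex.real_smul, div_eq_inv_mul, Complex.ofReal_inv]
    rw [e]
    exact h3
  exact (contMDiffAt_subtype_iff (U := U) (f := fun q => ph (f q)) (x := ⟨p, hp⟩)).mp (h4 ⟨p, hp⟩)


/-- point of the two sphere in direction `(1, u, z)` -/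
noncomputable def sph (u z : ℝ) : S2 :=
  ⟨(Real.sqrt (1 + u ^ 2 + z ^ 2))⁻¹ • !₂[1, u, z], by
    have hp : 0 < 1 + u ^ 2 + z ^ 2 := by positivity
    have hs : 0 < Real.sqrt (1 + u ^ 2 + z ^ 2) := Real.sqrt_pos.mpr hp
    have hn : ‖(!₂[1, u, z] : EuclideanSpace ℝ (Fin 3))‖ = Real.sqrt (1 + u ^ 2 + z ^ 2) := by
      rw [EuclideanSpace.norm_eq]
      congr 1
      simp [Fin.sum_univ_three]
    rw [mem_sphere_zero_iff_norm, norm_smul, hn, norm_inv, Real.norm_eq_abs, abs_of_pos hs]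
    exact inv_mul_cancel₀ hs.ne'⟩

theorem smooth_sph {u z : ℝ × ℝ × ℝ → ℝ} (hu : ContDiff ℝ ∞ u) (hz : ContDiff ℝ ∞ z) :
    ContMDiff 𝓘(ℝ, ℝ × ℝ × ℝ) (𝓡 2) ∞ (fun q => sph (u q) (z q)) := by
  have hE : Fact (finrank ℝ (EuclideanSpace ℝ (Fin 3)) = 2 + 1) := ⟨by simp⟩
  have h1 : ContDiff ℝ ∞ (fun q => (Real.sqrt (1 + (u q) ^ 2 + (z q) ^ 2))⁻¹ •
      (!₂[1, u q, z q] : EuclideanSpace ℝ (Fin 3))) := by
    have hp : ∀ q, 0 < 1 + (u q) ^ 2 + (z q) ^ 2 := fun q => by positivity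
    have h2 : ContDiff ℝ ∞ (fun q => Real.sqrt (1 + (u q) ^ 2 + (z q) ^ 2)) := by
      apply ContDiff.sqrt
      · fun_prop
      · exact fun q => (hp q).ne'
    have h3 : ContDiff ℝ ∞ (fun q => (!₂[1, u q, z q] : EuclideanSpace ℝ (Fin 3))) := by
      rw [contDiff_euclidean]
      intro i
      fin_cases i
      · exact contDiff_const
      · exact hu
      · exact hz
    exact (h2.inv fun q => (Real.sqrt_pos.mpr (hp q)).ne').smul h3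
  exact ContMDiff.codRestrict_sphere (n := 2) h1.contMDiff (fun q => (sph (u q) (z q)).2)

/-- the complex number `(x - c) + i y` -/
noncomputable def cc (c : ℝ) (p : ℝ × ℝ × ℝ) : ℂ := ((p.1 - c : ℝ) : ℂ) + ((p.2.1 : ℝ) : ℂ) * Complex.I

theorem cc_smooth (c : ℝ) : ContDiff ℝ ∞ (cc c) := by
  unfold cc
  have h1 : ContDiff ℝ ∞ fun p : ℝ × ℝ × ℝ => ((p.1 - c : ℝ) : ℂ) :=
    Complex.ofRealCLM.contDiff.comp (contDiff_fst.sub contDiff_const)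
  have h2 : ContDiff ℝ ∞ fun p : ℝ × ℝ × ℝ => ((p.2.1 : ℝ) : ℂ) :=
    Complex.ofRealCLM.contDiff.comp (by fun_prop)
  exact h1.add (h2.mul contDiff_const)

theorem cc_norm_sq (c : ℝ) (p : ℝ × ℝ × ℝ) : ‖cc c p‖ ^ 2 = (p.1 - c) ^ 2 + p.2.1 ^ 2 := by
  rw [norm_sq_re_im]
  simp [cc]

/-- The explicit map used to embed the genus two handlebody. -/
noncomputable def emb (p : ℝ × ℝ × ℝ) : X4 :=
  (ph (cc 4 p), ph (cc 8 p), sph ((p.1 - 4) ^ 2 + p.2.1 ^ 2) p.2.2)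

/-- The domain of the embedding. -/
def Udom : Set (ℝ × ℝ × ℝ) := {p | cc 4 p ≠ 0 ∧ cc 8 p ≠ 0}

theorem Udom_open : IsOpen Udom :=
  (isOpen_ne_fun (cc_smooth 4).continuous continuous_const).inter
    (isOpen_ne_fun (cc_smooth 8).continuous continuous_const)

theorem emb_smooth {p : ℝ × ℝ × ℝ} (hp : p ∈ Udom) :
    ContMDiffAt 𝓘(ℝ, ℝ × ℝ × ℝ) I4 ∞ emb p := by
  have h1 := smooth_phase (cc_smooth 4) hp.1
  have h2 := smooth_phase (cc_smooth 8) hp.2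
  have h3 : ContMDiff 𝓘(ℝ, ℝ × ℝ × ℝ) (𝓡 2) ∞
      (fun q : ℝ × ℝ × ℝ => sph ((q.1 - 4) ^ 2 + q.2.1 ^ 2) q.2.2) :=
    smooth_sph (by fun_prop) (by fun_prop)
  exact h1.prodMk (h2.prodMk h3.contMDiffAt)

/-- the left inverse in coordinates -/
noncomputable def GG (q : ℂ × EuclideanSpace ℝ (Fin 3)) : ℝ × ℝ × ℝ :=
  (4 + Real.sqrt (q.2 1 / q.2 0) * q.1.re, Real.sqrt (q.2 1 / q.2 0) * q.1.im, q.2 2 / q.2 0)

/-- coordinates on the product -/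
noncomputable def coord (x : X4) : ℂ × EuclideanSpace ℝ (Fin 3) := ((x.1 : ℂ), (x.2.2 : EuclideanSpace ℝ (Fin 3)))

theorem coord_smooth : ContMDiff I4 𝓘(ℝ, ℂ × EuclideanSpace ℝ (Fin 3)) ∞ coord := by
  have hE : Fact (finrank ℝ (EuclideanSpace ℝ (Fin 3)) = 2 + 1) := ⟨by simp⟩
  have h1 : ContMDiff (𝓡 1) 𝓘(ℝ, ℂ) ∞ (fun z : Circle => (z : ℂ)) :=
    contMDiff_coe_sphere (E := ℂ) (n := 1)
  have h2 : ContMDiff (𝓡 2) 𝓘(ℝ, EuclideanSpace ℝ (Fin 3)) ∞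
      (fun z : S2 => (z : EuclideanSpace ℝ (Fin 3))) := contMDiff_coe_sphere (n := 2)
  have h3 : ContMDiff I4 (𝓡 1) ∞ (fun x : X4 => x.1) := contMDiff_fst
  have h4 : ContMDiff I4 (𝓡 2) ∞ (fun x : X4 => x.2.2) := contMDiff_snd.comp contMDiff_snd
  exact (h1.comp h3).prodMk_space (h2.comp h4)

theorem GG_coord {p : ℝ × ℝ × ℝ} (hp : p ∈ Udom) : GG (coord (emb p)) = p := by
  have hne := hp.1
  have hn : 0 < ‖cc 4 p‖ := norm_pos_iff.mpr hne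
  have hu : 0 < (p.1 - 4) ^ 2 + p.2.1 ^ 2 := by
    rw [← cc_norm_sq]; positivity
  have hs : 0 < Real.sqrt (1 + ((p.1 - 4) ^ 2 + p.2.1 ^ 2) ^ 2 + p.2.2 ^ 2) :=
    Real.sqrt_pos.mpr (by positivity)
  have e0 : (coord (emb p)).2 0 = (Real.sqrt (1 + ((p.1 - 4) ^ 2 + p.2.1 ^ 2) ^ 2 + p.2.2 ^ 2))⁻¹ * 1 :=
    rfl
  have e1 : (coord (emb p)).2 1 = (Real.sqrt (1 + ((p.1 - 4) ^ 2 + p.2.1 ^ 2) ^ 2 + p.2.2 ^ 2))⁻¹ *
      ((p.1 - 4) ^ 2 + p.2.1 ^ 2) := rfl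
  have e2 : (coord (emb p)).2 2 = (Real.sqrt (1 + ((p.1 - 4) ^ 2 + p.2.1 ^ 2) ^ 2 + p.2.2 ^ 2))⁻¹ *
      p.2.2 := rfl
  have e3 : (coord (emb p)).1 = cc 4 p / ‖cc 4 p‖ := ph_coe hne
  have hdiv : (coord (emb p)).2 1 / (coord (emb p)).2 0 = ‖cc 4 p‖ ^ 2 := by
    rw [e0, e1, cc_norm_sq]
    field_simp
  have hdiv2 : (coord (emb p)).2 2 / (coord (emb p)).2 0 = p.2.2 := by
    rw [e0, e2]
    field_simp
  unfold GG
  rw [hdiv, hdiv2, Real.sqrt_sq hn.le, e3]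
  have r1 : (cc 4 p / (‖cc 4 p‖ : ℂ)).re = (p.1 - 4) / ‖cc 4 p‖ := by
    rw [Complex.div_ofReal_re]
    simp [cc]
  have r2 : (cc 4 p / (‖cc 4 p‖ : ℂ)).im = p.2.1 / ‖cc 4 p‖ := by
    rw [Complex.div_ofReal_im]
    simp [cc]
  rw [r1, r2]
  refine Prod.ext ?_ (Prod.ext ?_ rfl)
  · show 4 + ‖cc 4 p‖ * ((p.1 - 4) / ‖cc 4 p‖) = p.1
    field_simp
    ring
  · show ‖cc 4 p‖ * (p.2.1 / ‖cc 4 p‖) = p.2.1
    field_simp

theorem emb_inj : InjOn emb Udom := by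
  intro p hp q hq h
  rw [← GG_coord hp, ← GG_coord hq, h]

theorem GG_diff {q : ℂ × EuclideanSpace ℝ (Fin 3)} (h0 : q.2 0 ≠ 0) (h1 : q.2 1 / q.2 0 ≠ 0) :
    DifferentiableAt ℝ GG q := by
  have c0 : DifferentiableAt ℝ (fun q : ℂ × EuclideanSpace ℝ (Fin 3) => q.2 0) q := by fun_prop
  have c1 : DifferentiableAt ℝ (fun q : ℂ × EuclideanSpace ℝ (Fin 3) => q.2 1) q := by fun_prop
  have c2 : DifferentiableAt ℝ (fun q : ℂ × EuclideanSpace ℝ (Fin 3) => q.2 2) q := by fun_prop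
  have cr : DifferentiableAt ℝ (fun q : ℂ × EuclideanSpace ℝ (Fin 3) => q.1.re) q :=
    Complex.reCLM.differentiableAt.comp q differentiableAt_fst
  have ci : DifferentiableAt ℝ (fun q : ℂ × EuclideanSpace ℝ (Fin 3) => q.1.im) q :=
    Complex.imCLM.differentiableAt.comp q differentiableAt_fst
  have d1 : DifferentiableAt ℝ (fun q : ℂ × EuclideanSpace ℝ (Fin 3) => q.2 1 / q.2 0) q := by
    simp only [div_eq_mul_inv]
    exact c1.fun_mul (c0.fun_inv h0)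
  have d2 : DifferentiableAt ℝ (fun q : ℂ × EuclideanSpace ℝ (Fin 3) => q.2 2 / q.2 0) q := by
    simp only [div_eq_mul_inv]
    exact c2.fun_mul (c0.fun_inv h0)
  have cs : DifferentiableAt ℝ (fun q : ℂ × EuclideanSpace ℝ (Fin 3) =>
      Real.sqrt (q.2 1 / q.2 0)) q := d1.sqrt h1
  exact ((differentiableAt_const _).add (cs.mul cr)).prodMk ((cs.mul ci).prodMk d2)

theorem emb_immersion {p : ℝ × ℝ × ℝ} (hp : p ∈ Udom) :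
    Function.Injective (mfderiv 𝓘(ℝ, ℝ × ℝ × ℝ) I4 emb p) := by
  have hu : 0 < (p.1 - 4) ^ 2 + p.2.1 ^ 2 := by
    rw [← cc_norm_sq]
    have : 0 < ‖cc 4 p‖ := norm_pos_iff.mpr hp.1
    positivity
  have hs : 0 < (Real.sqrt (1 + ((p.1 - 4) ^ 2 + p.2.1 ^ 2) ^ 2 + p.2.2 ^ 2))⁻¹ :=
    inv_pos.mpr (Real.sqrt_pos.mpr (by positivity))
  have e0 : (coord (emb p)).2 0 = (Real.sqrt (1 + ((p.1 - 4) ^ 2 + p.2.1 ^ 2) ^ 2 + p.2.2 ^ 2))⁻¹ * 1 :=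
    rfl
  have e1 : (coord (emb p)).2 1 = (Real.sqrt (1 + ((p.1 - 4) ^ 2 + p.2.1 ^ 2) ^ 2 + p.2.2 ^ 2))⁻¹ *
      ((p.1 - 4) ^ 2 + p.2.1 ^ 2) := rfl
  have h0 : (coord (emb p)).2 0 ≠ 0 := by rw [e0, mul_one]; exact hs.ne'
  have h1 : (coord (emb p)).2 1 / (coord (emb p)).2 0 ≠ 0 := by
    rw [div_ne_zero_iff]
    refine ⟨?_, h0⟩
    rw [e1]
    positivity
  have d1 : MDifferentiableAt 𝓘(ℝ, ℝ × ℝ × ℝ) I4 emb p :=
    (emb_smooth hp).mdifferentiableAt (by simp)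
  have d2 : MDifferentiableAt I4 𝓘(ℝ, ℂ × EuclideanSpace ℝ (Fin 3)) coord (emb p) :=
    coord_smooth.contMDiffAt.mdifferentiableAt (by simp)
  have d3 : MDifferentiableAt 𝓘(ℝ, ℂ × EuclideanSpace ℝ (Fin 3)) 𝓘(ℝ, ℝ × ℝ × ℝ) GG
      (coord (emb p)) := (GG_diff h0 h1).mdifferentiableAt
  have d23 : MDifferentiableAt I4 𝓘(ℝ, ℝ × ℝ × ℝ) (GG ∘ coord) (emb p) := d3.comp (emb p) d2
  have hcomp := mfderiv_comp p d23 d1
  have hid : mfderiv 𝓘(ℝ, ℝ × ℝ × ℝ) 𝓘(ℝ, ℝ × ℝ × ℝ) ((GG ∘ coord) ∘ emb) p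
      = mfderiv 𝓘(ℝ, ℝ × ℝ × ℝ) 𝓘(ℝ, ℝ × ℝ × ℝ) (id : ℝ × ℝ × ℝ → ℝ × ℝ × ℝ) p := by
    apply Filter.EventuallyEq.mfderiv_eq
    filter_upwards [Udom_open.mem_nhds hp] with q hq
    exact GG_coord hq
  rw [mfderiv_id] at hid
  intro v w hvw
  have hv : (mfderiv I4 𝓘(ℝ, ℝ × ℝ × ℝ) (GG ∘ coord) (emb p))
      ((mfderiv 𝓘(ℝ, ℝ × ℝ × ℝ) I4 emb p) v) = v := by
    have := congrArg (fun L => L v) (hcomp.symm.trans hid)
    exact this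
  have hw : (mfderiv I4 𝓘(ℝ, ℝ × ℝ × ℝ) (GG ∘ coord) (emb p))
      ((mfderiv 𝓘(ℝ, ℝ × ℝ × ℝ) I4 emb p) w) = w := by
    have := congrArg (fun L => L w) (hcomp.symm.trans hid)
    exact this
  rw [← hv, ← hw, hvw]

end Pool.Agent.Helper427.Tri
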