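import Pool.Agent.Helper427.Tri.Pi1

open Set Topology Metric Module
open scoped Real ContDiff unitInterval

namespace Pool.Agent.Helper427.Tri

theorem ph_smooth {f : ℝ × ℝ × ℝ → ℂ} (hf : ContDiff ℝ ∞ f) {p : ℝ × ℝ × ℝ} (hp : f p ≠ 0) :
    ContDiffAt ℝ ∞ (fun q => (ph (f q) : ℂ)) p := by
  have h1 : ContDiffAt ℝ ∞ (fun q => (‖f q‖⁻¹ : ℝ) • f q) p := by
    have hn : ContDiffAt ℝ ∞ (fun q => ‖f q‖) p := hf.contDiffAt.norm ℝ hp
    exact (hn.inv (norm_ne_zero_iff.mpr hp)).smul hf.contDiffAt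
  refine h1.congr_of_eventuallyEq ?_
  filter_upwards [(isOpen_ne_fun hf.continuous continuous_const).mem_nhds hp] with q hq
  rw [ph_coe hq, Complex.real_smul, div_eq_inv_mul, Complex.ofReal_inv]

theorem sph_smooth {u z : ℝ × ℝ × ℝ → ℝ} (hu : ContDiff ℝ ∞ u) (hz : ContDiff ℝ ∞ z) :
    ContDiff ℝ ∞ (fun q => ((sph (u q) (z q) : S2) : EuclideanSpace ℝ (Fin 3))) := by
  have hp : ∀ q, 0 < 1 + (u q) ^ 2 + (z q) ^ 2 := fun q => by positivity
  have h2 : ContDiff ℝ ∞ (fun q => Real.sqrt (1 + (u q) ^ 2 + (z q) ^ 2)) := by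
    apply ContDiff.sqrt
    · fun_prop
    · exact fun q => (hp q).ne'
  have h3 : ContDiff ℝ ∞ (fun q => (!₂[1, u q, z q] : EuclideanSpace ℝ (Fin 3))) := by
    rw [contDiff_euclidean]
    intro i
    fin_cases i
    · exact contDiff_const
    · exact hu
    · exact hz
  exact (h2.inv fun q => (Real.sqrt_pos.mpr (hp q)).ne').smul h3

theorem coords_smooth {p : ℝ × ℝ × ℝ} (hp : p ∈ Udom) :
    ContDiffAt ℝ ∞ (fun q => coords (emb q)) p := by
  have h : ContDiff ℝ ∞ (fun q : ℝ × ℝ × ℝ => ((sph ((q.1 - 4) ^ 2 + q.2.1 ^ 2) q.2.2 : S2) :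
      EuclideanSpace ℝ (Fin 3))) := sph_smooth (by fun_prop) (by fun_prop)
  have h' := contDiff_euclidean.mp h
  exact (ph_smooth (cc_smooth 4) hp.1).prodMk ((ph_smooth (cc_smooth 8) hp.2).prodMk
    ((h' 0).contDiffAt.prodMk ((h' 1).contDiffAt.prodMk (h' 2).contDiffAt)))

theorem coords_imm {p : ℝ × ℝ × ℝ} (hp : p ∈ Udom) :
    Function.Injective (fderiv ℝ (fun q => coords (emb q)) p) := by
  have hu : 0 < (p.1 - 4) ^ 2 + p.2.1 ^ 2 := by
    rw [← cc_norm_sq]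
    have : 0 < ‖cc 4 p‖ := norm_pos_iff.mpr hp.1
    positivity
  have hs : 0 < (Real.sqrt (1 + ((p.1 - 4) ^ 2 + p.2.1 ^ 2) ^ 2 + p.2.2 ^ 2))⁻¹ :=
    inv_pos.mpr (Real.sqrt_pos.mpr (by positivity))
  have e0 : (coord (emb p)).2 0 = (Real.sqrt (1 + ((p.1 - 4) ^ 2 + p.2.1 ^ 2) ^ 2 + p.2.2 ^ 2))⁻¹ * 1 :=
    rfl
  have e1 : (coord (emb p)).2 1 = (Real.sqrt (1 + ((p.1 - 4) ^ 2 + p.2.1 ^ 2) ^ 2 + p.2.2 ^ 2))⁻¹ *
      ((p.1 - 4) ^ 2 + p.2.1 ^ 2) := rfl
  have h0 : (coord (emb p)).2 0 ≠ 0 := by rw [e0, mul_one]; exact hs.ne'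
  have h1 : (coord (emb p)).2 1 / (coord (emb p)).2 0 ≠ 0 := by
    rw [div_ne_zero_iff]
    refine ⟨?_, h0⟩
    rw [e1]
    positivity
  let L : ℂ × ℂ × ℝ × ℝ × ℝ → ℂ × EuclideanSpace ℝ (Fin 3) :=
    fun q => (q.1, !₂[q.2.2.1, q.2.2.2.1, q.2.2.2.2])
  let K : ℂ × ℂ × ℝ × ℝ × ℝ → ℝ × ℝ × ℝ := fun q => GG (L q)
  have hL : ∀ x : X4, L (coords x) = coord x := by
    intro x
    refine Prod.ext rfl ?_
    ext i
    fin_cases i <;> rfl
  have hK : DifferentiableAt ℝ K (coords (emb p)) := by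
    have hpr : DifferentiableAt ℝ L (coords (emb p)) := by
      refine differentiableAt_fst.prodMk ?_
      rw [differentiableAt_euclidean]
      intro i
      fin_cases i
      · show DifferentiableAt ℝ (fun q : ℂ × ℂ × ℝ × ℝ × ℝ => q.2.2.1) _
        fun_prop
      · show DifferentiableAt ℝ (fun q : ℂ × ℂ × ℝ × ℝ × ℝ => q.2.2.2.1) _
        fun_prop
      · show DifferentiableAt ℝ (fun q : ℂ × ℂ × ℝ × ℝ × ℝ => q.2.2.2.2) _
        fun_prop
    refine DifferentiableAt.comp (g := GG) (f := L) (coords (emb p)) ?_ hpr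
    rw [hL (emb p)]
    exact GG_diff h0 h1
  have hE : DifferentiableAt ℝ (fun q => coords (emb q)) p :=
    (coords_smooth hp).differentiableAt (by simp)
  have hcomp := fderiv_comp p hK hE
  have hid : fderiv ℝ (K ∘ fun q => coords (emb q)) p = fderiv ℝ (id : ℝ × ℝ × ℝ → ℝ × ℝ × ℝ) p := by
    apply Filter.EventuallyEq.fderiv_eq
    filter_upwards [Udom_open.mem_nhds hp] with q hq
    show GG (L (coords (emb q))) = q
    rw [hL (emb q)]
    exact GG_coord hq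
  rw [fderiv_id] at hid
  intro v w hvw
  have hv : ∀ v, fderiv ℝ K (coords (emb p)) (fderiv ℝ (fun q => coords (emb q)) p v) = v := by
    intro v
    have := congrArg (fun L => L v) (hcomp.symm.trans hid)
    exact this
  rw [← hv v, ← hv w, hvw]

theorem piOneOnto : PiOneOnto Sig := by
  intro x hx γ
  obtain ⟨h, hh⟩ := surj_all ⟨x, hx⟩ (Path.Homotopic.Quotient.mk γ)
  obtain ⟨δ, rfl⟩ := Path.Homotopic.Quotient.mk_surjective (X := Sig) h
  refine ⟨δ.map (incl Sig).continuous, fun t => (δ t).2, ?_⟩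
  exact (Path.Homotopic.Quotient.eq.mp hh).symm

/-- In `X = S¹ × S¹ × S²` there is a smoothly embedded closed surface `S` of genus two which bounds
a smoothly embedded handlebody and is surjective on fundamental groups, but which is not the core of
any trisection of `X`, not even of a topological one. -/
theorem main : RegularSurf 2 ∧ ∃ S : Set X,
    BoundsHandlebody 2 S ∧ IsPathConnected S ∧ PiOneOnto S ∧
      ∀ (k : Fin 3 → ℕ) (Y : Fin 3 → Set X), IsTrisection 2 k Y → ⋂ i, Y i ≠ S :=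
  ⟨fun _ hp => surf_regular hp, Sig, ⟨emb, Udom, handle_sub_Udom, ⟨Udom_open,
    fun _ hp => (coords_smooth hp).contDiffWithinAt, emb_inj, fun _ hp => coords_imm hp⟩, rfl⟩,
    Sig_path, piOneOnto, no_tri⟩

end Pool.Agent.Helper427.Tri
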