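import Pool.Agent.Helper427.Tri.Loops

open Set Topology Metric Module
open scoped Real ComplexConjugate Manifold ContDiff unitInterval

set_option linter.unusedSectionVars false

namespace Pool.Agent.Helper427.Tri

theorem ph_of {z : ℂ} {r θ : ℝ} (hr : 0 < r) (h : z = r * Complex.exp (θ * Complex.I)) :
    ph z = Circle.exp θ := by
  have hn : ‖z‖ = r := by
    rw [h, norm_mul, Complex.norm_exp_ofReal_mul_I, mul_one, Complex.norm_real, Real.norm_eq_abs,
      abs_of_pos hr]
  have hz : z ≠ 0 := by
    rw [← norm_pos_iff, hn]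
    exact hr
  apply Circle.ext
  rw [ph_coe hz, hn, h, Circle.coe_exp, mul_div_assoc, mul_comm, div_mul_cancel₀]
  exact_mod_cast hr.ne'

/-- the point `2 e^{iθ}`, in coordinates, relative to `c`, with sign `e` -/
noncomputable def circ (c e θ : ℝ) : ℝ × ℝ := (c + e * (2 * Real.cos θ), e * (2 * Real.sin θ))

theorem circ_InD4 (θ : ℝ) : InD 2 (circ 4 1 θ).1 (circ 4 1 θ).2 := by
  rw [InD_two]
  unfold circ
  have h := Real.sin_sq_add_cos_sq θ
  have h1 := Real.cos_le_one θ
  have h2 := Real.neg_one_le_cos θ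
  refine ⟨by nlinarith, by nlinarith, by nlinarith⟩

theorem circ_InD8 (θ : ℝ) : InD 2 (circ 8 (-1) θ).1 (circ 8 (-1) θ).2 := by
  rw [InD_two]
  unfold circ
  have h := Real.sin_sq_add_cos_sq θ
  have h1 := Real.cos_le_one θ
  have h2 := Real.neg_one_le_cos θ
  refine ⟨by nlinarith, by nlinarith, by nlinarith⟩

/-- `4 - 2 e^{iθ}` -/
noncomputable def uu (θ : ℝ) : ℂ := 4 - 2 * Complex.exp (θ * Complex.I)

theorem uu_re (θ : ℝ) : 0 < (uu θ).re := by
  have : (uu θ).re = 4 - 2 * Real.cos θ := by
    simp [uu, Complex.exp_ofReal_mul_I_re]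
  rw [this]
  have h1 := Real.cos_le_one θ
  linarith

theorem uu_ne (θ : ℝ) : uu θ ≠ 0 := by
  intro h
  have := uu_re θ
  rw [h] at this
  simp at this

theorem uu_arg_cont : Continuous fun θ : ℝ => Complex.arg (uu θ) := by
  rw [continuous_iff_continuousAt]
  intro θ
  have h1 : Continuous uu := by
    unfold uu
    fun_prop
  exact ContinuousAt.comp (f := uu) (g := Complex.arg)
    (Complex.continuousAt_arg (Or.inl (uu_re θ))) h1.continuousAt

theorem uu_int (n : ℤ) : Complex.arg (uu (2 * π * n)) = 0 := by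
  have h : uu (2 * π * n) = ((2 : ℝ) : ℂ) := by
    unfold uu
    have : ((2 * π * n : ℝ) : ℂ) * Complex.I = n * (2 * π * Complex.I) := by
      push_cast; ring
    rw [this, Complex.exp_int_mul_two_pi_mul_I]
    push_cast
    norm_num
  rw [h]
  exact Complex.arg_ofReal_of_nonneg (by norm_num)

theorem exp_re_im (θ : ℝ) : Complex.exp (θ * Complex.I) = (Real.cos θ : ℂ) + (Real.sin θ : ℂ) * Complex.I := by
  rw [Complex.exp_mul_I]
  push_cast
  rfl

theorem A4 (θ z : ℝ) : ph (cc 4 ((circ 4 1 θ).1, (circ 4 1 θ).2, z)) = Circle.exp θ := by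
  apply ph_of (r := 2) (by norm_num)
  rw [exp_re_im]
  unfold cc circ
  push_cast
  ring

theorem A8 (θ z : ℝ) : ph (cc 8 ((circ 4 1 θ).1, (circ 4 1 θ).2, z))
    = Circle.exp (π + Complex.arg (uu θ)) := by
  apply ph_of (r := ‖uu θ‖) (norm_pos_iff.mpr (uu_ne θ))
  have h := Complex.norm_mul_exp_arg_mul_I (uu θ)
  have e : Complex.exp (((π + Complex.arg (uu θ) : ℝ) : ℂ) * Complex.I)
      = - Complex.exp ((Complex.arg (uu θ) : ℂ) * Complex.I) := by
    push_cast
    rw [add_mul, Complex.exp_add, Complex.exp_pi_mul_I]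
    ring
  rw [e, mul_neg, h]
  unfold uu
  rw [exp_re_im]
  unfold cc circ
  push_cast
  ring

theorem B4 (θ z : ℝ) : ph (cc 4 ((circ 8 (-1) θ).1, (circ 8 (-1) θ).2, z))
    = Circle.exp (Complex.arg (uu θ)) := by
  apply ph_of (r := ‖uu θ‖) (norm_pos_iff.mpr (uu_ne θ))
  rw [Complex.norm_mul_exp_arg_mul_I]
  unfold uu
  rw [exp_re_im]
  unfold cc circ
  push_cast
  ring

theorem B8 (θ z : ℝ) : ph (cc 8 ((circ 8 (-1) θ).1, (circ 8 (-1) θ).2, z))
    = Circle.exp (π + θ) := by
  apply ph_of (r := 2) (by norm_num)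
  have e : Complex.exp (((π + θ : ℝ) : ℂ) * Complex.I)
      = - Complex.exp ((θ : ℂ) * Complex.I) := by
    push_cast
    rw [add_mul, Complex.exp_add, Complex.exp_pi_mul_I]
    ring
  rw [e, exp_re_im]
  unfold cc circ
  push_cast
  ring

/-- base point of the surface -/
noncomputable def bpt : surf 2 := ⟨sheet 1 (6, 0), sheet_mem (by norm_num) (by
  show InD 2 6 0
  rw [InD_two]
  norm_num)⟩

theorem circ4_int (n : ℤ) : circ 4 1 (2 * π * n) = (6, 0) := by
  unfold circ
  have h1 : Real.cos (2 * π * n) = 1 := by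
    rw [mul_comm]; exact Real.cos_int_mul_two_pi n
  have h2 : Real.sin (2 * π * n) = 0 := by
    have := Real.sin_int_mul_pi (2 * n)
    rw [← this]; congr 1; push_cast; ring
  rw [h1, h2]
  norm_num

theorem circ8_int (n : ℤ) : circ 8 (-1) (2 * π * n) = (6, 0) := by
  unfold circ
  have h1 : Real.cos (2 * π * n) = 1 := by
    rw [mul_comm]; exact Real.cos_int_mul_two_pi n
  have h2 : Real.sin (2 * π * n) = 0 := by
    have := Real.sin_int_mul_pi (2 * n)
    rw [← this]; congr 1; push_cast; ring
  rw [h1, h2]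
  norm_num

theorem circ_cont (c e : ℝ) : Continuous (circ c e) := by
  unfold circ
  fun_prop

/-- loop around the first hole -/
noncomputable def loopA (n : ℤ) : Path bpt bpt where
  toFun t := ⟨sheet 1 (circ 4 1 (2 * π * n * t)), sheet_mem (by norm_num) (circ_InD4 _)⟩
  continuous_toFun := by
    have h1 := sheet_cont 1
    have h2 := circ_cont 4 1
    fun_prop
  source' := by
    apply Subtype.ext
    show sheet 1 (circ 4 1 (2 * π * n * ((0 : I) : ℝ))) = sheet 1 (6, 0)
    have := circ4_int 0
    simp only [Int.cast_zero, mul_zero] at this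
    rw [Set.Icc.coe_zero, mul_zero, this]
  target' := by
    apply Subtype.ext
    show sheet 1 (circ 4 1 (2 * π * n * ((1 : I) : ℝ))) = sheet 1 (6, 0)
    rw [Set.Icc.coe_one, mul_one, circ4_int]

/-- loop around the second hole -/
noncomputable def loopB (n : ℤ) : Path bpt bpt where
  toFun t := ⟨sheet 1 (circ 8 (-1) (2 * π * n * t)), sheet_mem (by norm_num) (circ_InD8 _)⟩
  continuous_toFun := by
    have h1 := sheet_cont 1
    have h2 := circ_cont 8 (-1)
    fun_prop
  source' := by
    apply Subtype.ext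
    show sheet 1 (circ 8 (-1) (2 * π * n * ((0 : I) : ℝ))) = sheet 1 (6, 0)
    have := circ8_int 0
    simp only [Int.cast_zero, mul_zero] at this
    rw [Set.Icc.coe_zero, mul_zero, this]
  target' := by
    apply Subtype.ext
    show sheet 1 (circ 8 (-1) (2 * π * n * ((1 : I) : ℝ))) = sheet 1 (6, 0)
    rw [Set.Icc.coe_one, mul_one, circ8_int]

/-- The embedded surface. -/
def Sig : Set X4 := emb '' surf 2

theorem emb_contOn : ContinuousOn emb Udom := fun _ hp =>
  (emb_smooth hp).continuousAt.continuousWithinAt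

/-- the embedding restricted to the surface -/
noncomputable def embS : C(surf 2, Sig) where
  toFun p := ⟨emb p, mem_image_of_mem _ p.2⟩
  continuous_toFun := by
    apply Continuous.subtype_mk
    exact (emb_contOn.mono ((surf_sub 2).trans handle_sub_Udom)).domRestrict

/-- the inclusion of the surface -/
def incl (S : Set X4) : C(S, X4) := ⟨Subtype.val, continuous_subtype_val⟩

/-- base point -/
noncomputable def x0 : Sig := embS bpt

/-- loops in the embedded surface -/
noncomputable def pA (n : ℤ) : Path x0 x0 := (loopA n).map embS.continuous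
/-- loops in the embedded surface -/
noncomputable def pB (n : ℤ) : Path x0 x0 := (loopB n).map embS.continuous

theorem fst_cont : Continuous fun x : X4 => x.1 := continuous_fst
theorem snd_cont : Continuous fun x : X4 => x.2.1 := by fun_prop
theorem thd_cont : Continuous fun x : X4 => x.2.2 := by fun_prop

theorem pA1 (n : ℤ) : Lg (((pA n).map (incl Sig).continuous).map fst_cont) 0 (2 * π * n) := by
  have := Lg.of_fun (p := ((pA n).map (incl Sig).continuous).map fst_cont)
    ⟨fun t => 2 * π * n * t, by fun_prop⟩ (fun t => A4 _ _)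
  simpa using this

theorem pA2 (n : ℤ) : Lg (((pA n).map (incl Sig).continuous).map snd_cont) π π := by
  have hc : Continuous fun t : I => Complex.arg (uu (2 * π * n * t)) :=
    uu_arg_cont.comp (by fun_prop : Continuous fun t : I => 2 * π * n * (t : ℝ))
  have := Lg.of_fun (p := ((pA n).map (incl Sig).continuous).map snd_cont)
    ⟨fun t => π + Complex.arg (uu (2 * π * n * t)), continuous_const.add hc⟩ (fun t => A8 _ _)
  have h0 := uu_int 0
  simp only [Int.cast_zero, mul_zero] at h0
  simpa [h0, uu_int] using this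

theorem pB1 (n : ℤ) : Lg (((pB n).map (incl Sig).continuous).map fst_cont) 0 0 := by
  have hc : Continuous fun t : I => Complex.arg (uu (2 * π * n * t)) :=
    uu_arg_cont.comp (by fun_prop : Continuous fun t : I => 2 * π * n * (t : ℝ))
  have := Lg.of_fun (p := ((pB n).map (incl Sig).continuous).map fst_cont)
    ⟨fun t => Complex.arg (uu (2 * π * n * t)), hc⟩ (fun t => B4 _ _)
  have h0 := uu_int 0
  simp only [Int.cast_zero, mul_zero] at h0
  simpa [h0, uu_int] using this

theorem pB2 (n : ℤ) : Lg (((pB n).map (incl Sig).continuous).map snd_cont) π (π + 2 * π * n) := by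
  have := Lg.of_fun (p := ((pB n).map (incl Sig).continuous).map snd_cont)
    ⟨fun t => π + 2 * π * n * t, by fun_prop⟩ (fun t => B8 _ _)
  simpa using this

end Pool.Agent.Helper427.Tri
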