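import Pool.Agent.Helper427.Tri.Mid

open Set Topology Metric
open scoped ComplexConjugate

set_option linter.unusedSectionVars false

namespace Pool.Agent.Helper427.Tri

/-- The pair of functions lifts `s` over `Y`. -/
def LiftOn {X : Type*} [TopologicalSpace X] (s : X → S2) (Y : Set X) (a b : X → ℂ) : Prop :=
  ContinuousOn a Y ∧ ContinuousOn b Y ∧ ∀ x ∈ Y, ‖a x‖ ^ 2 + ‖b x‖ ^ 2 = 1 ∧ Line (s x) (a x) (b x)

theorem line_cross {s : S2} {a b a' b' : ℂ} (h : Line s a b) (h' : Line s a' b') :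
    a' * b = a * b' := by
  obtain ⟨e1, e2⟩ := h
  obtain ⟨f1, f2⟩ := h'
  have h2 : 2 * (a' * b - a * b') = 0 := by
    linear_combination (-a') * e2 + a * f2 + b * f1 - b' * e1
  have h3 : a' * b - a * b' = 0 := by
    rcases mul_eq_zero.mp h2 with h | h
    · norm_num at h
    · exact h
  exact sub_eq_zero.mp h3

theorem ratio {s : S2} {a b a' b' : ℂ} (hn : ‖a‖ ^ 2 + ‖b‖ ^ 2 = 1) (hn' : ‖a'‖ ^ 2 + ‖b'‖ ^ 2 = 1)
    (h : Line s a b) (h' : Line s a' b') :
    ‖conj a * a' + conj b * b'‖ = 1 ∧ a' = (conj a * a' + conj b * b') * a ∧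
      b' = (conj a * a' + conj b * b') * b := by
  have hc := line_cross h h'
  have hN : a * conj a + b * conj b = 1 := by
    rw [Complex.mul_conj, Complex.mul_conj, Complex.normSq_eq_norm_sq, Complex.normSq_eq_norm_sq]
    exact_mod_cast hn
  have e1 : a' = (conj a * a' + conj b * b') * a := by
    linear_combination (-a') * hN + conj b * hc
  have e2 : b' = (conj a * a' + conj b * b') * b := by
    linear_combination (-b') * hN - conj a * hc
  refine ⟨?_, e1, e2⟩
  set g := conj a * a' + conj b * b' with hg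
  have h1 : ‖a'‖ ^ 2 = ‖g‖ ^ 2 * ‖a‖ ^ 2 := by
    have : ‖a'‖ = ‖g‖ * ‖a‖ := by
      conv_lhs => rw [e1]
      rw [norm_mul]
    rw [this, mul_pow]
  have h2 : ‖b'‖ ^ 2 = ‖g‖ ^ 2 * ‖b‖ ^ 2 := by
    have : ‖b'‖ = ‖g‖ * ‖b‖ := by
      conv_lhs => rw [e2]
      rw [norm_mul]
    rw [this, mul_pow]
  have h3 : ‖g‖ ^ 2 = 1 := by
    have : ‖g‖ ^ 2 * (‖a‖ ^ 2 + ‖b‖ ^ 2) = 1 := by
      rw [mul_add, ← h1, ← h2, hn']
    rwa [hn, mul_one] at this
  have h4 := norm_nonneg g
  nlinarith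

theorem Line.smul {s : S2} {a b : ℂ} (h : Line s a b) (g : ℂ) : Line s (g * a) (g * b) := by
  obtain ⟨e1, e2⟩ := h
  constructor
  · linear_combination g * e1
  · linear_combination g * e2

variable {X : Type*} [TopologicalSpace X]

theorem circ_ind : IsInducing (fun z : Circle => (z : ℂ)) := ⟨rfl⟩

theorem exp_arg_of_norm {z : ℂ} (h : ‖z‖ = 1) : (Circle.exp (Complex.arg z) : ℂ) = z := by
  rw [Circle.coe_exp]
  have := Complex.norm_mul_exp_arg_mul_I z
  rwa [h, Complex.ofReal_one, one_mul] at this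

/-- circle valued ratio of two lifts -/
theorem LiftOn.ratio {s : X → S2} {Y : Set X} {a b a' b' : X → ℂ} (L : LiftOn s Y a b)
    (L' : LiftOn s Y a' b') : ∃ g : X → Circle, ContinuousOn g Y ∧
      ∀ x ∈ Y, a' x = g x * a x ∧ b' x = g x * b x := by
  classical
  let G : X → ℂ := fun x => conj (a x) * a' x + conj (b x) * b' x
  have hG : ∀ x ∈ Y, ‖G x‖ = 1 := fun x hx =>
    (Tri.ratio (L.2.2 x hx).1 (L'.2.2 x hx).1 (L.2.2 x hx).2 (L'.2.2 x hx).2).1
  let g : X → Circle := fun x => Circle.exp (Complex.arg (G x))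
  have hg : ∀ x ∈ Y, (g x : ℂ) = G x := fun x hx => exp_arg_of_norm (hG x hx)
  refine ⟨g, ?_, ?_⟩
  · rw [circ_ind.continuousOn_iff]
    have hGc : ContinuousOn G Y := by
      have ca : ContinuousOn (fun x => conj (a x)) Y := Complex.continuous_conj.comp_continuousOn L.1
      have cb : ContinuousOn (fun x => conj (b x)) Y :=
        Complex.continuous_conj.comp_continuousOn L.2.1
      exact (ca.mul L'.1).add (cb.mul L'.2.1)
    exact hGc.congr fun x hx => hg x hx
  · intro x hx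
    rw [hg x hx]
    have := Tri.ratio (L.2.2 x hx).1 (L'.2.2 x hx).1 (L.2.2 x hx).2 (L'.2.2 x hx).2
    exact ⟨this.2.1, this.2.2⟩

theorem extend_real [NormalSpace X] {K : Set X} (hK : IsClosed K) {r : X → ℝ}
    (hr : ContinuousOn r K) : ∃ R : C(X, ℝ), ∀ x ∈ K, R x = r x := by
  obtain ⟨R, hR⟩ := ContinuousMap.exists_restrict_eq hK
    ⟨K.domRestrict r, continuousOn_iff_continuous_domRestrict.mp hr⟩
  refine ⟨R, fun x hx => ?_⟩
  have := congrArg (fun f : C(K, ℝ) => f ⟨x, hx⟩) hR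
  exact this

theorem glue [NormalSpace X] {s : X → S2} {Y1 Y2 : Set X} (h1 : IsClosed Y1) (h2 : IsClosed Y2)
    {a1 b1 a2 b2 : X → ℂ} (L1 : LiftOn s Y1 a1 b1) (L2 : LiftOn s Y2 a2 b2) (t : X → Circle)
    (ht : Continuous t) (r : X → ℝ) (hr : ContinuousOn r (Y1 ∩ Y2))
    (hg : ∀ x ∈ Y1 ∩ Y2, a2 x = (t x * Circle.exp (r x) : Circle) * a1 x ∧
      b2 x = (t x * Circle.exp (r x) : Circle) * b1 x) :
    ∃ a b, LiftOn s (Y1 ∪ Y2) a b := by
  classical
  obtain ⟨R, hR⟩ := extend_real (h1.inter h2) hr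
  let u : X → Circle := fun x => (t x * Circle.exp (R x))⁻¹
  have hu : Continuous u := by
    show Continuous fun x => (t x * Circle.exp (R x))⁻¹
    fun_prop
  have hu' : Continuous fun x => (u x : ℂ) := continuous_subtype_val.comp hu
  have hcancel : ∀ x ∈ Y1 ∩ Y2, (u x : ℂ) * a2 x = a1 x ∧ (u x : ℂ) * b2 x = b1 x := by
    intro x hx
    obtain ⟨e1, e2⟩ := hg x hx
    have h3 : (u x : ℂ) * ((t x * Circle.exp (r x) : Circle) : ℂ) = 1 := by
      rw [← Circle.coe_mul]
      have : u x * (t x * Circle.exp (r x)) = 1 := by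
        show (t x * Circle.exp (R x))⁻¹ * (t x * Circle.exp (r x)) = 1
        rw [hR x hx, inv_mul_cancel]
      rw [this, Circle.coe_one]
    constructor
    · rw [e1, ← mul_assoc, h3, one_mul]
    · rw [e2, ← mul_assoc, h3, one_mul]
  refine ⟨fun x => if x ∈ Y1 then a1 x else (u x : ℂ) * a2 x,
    fun x => if x ∈ Y1 then b1 x else (u x : ℂ) * b2 x, ?_, ?_, ?_⟩
  · apply ContinuousOn.union_of_isClosed _ _ h1 h2
    · exact L1.1.congr fun x hx => by simp [hx]
    · refine (hu'.continuousOn.mul L2.1).congr fun x hx => ?_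
      by_cases hx1 : x ∈ Y1
      · simp only [hx1, if_true]
        exact (hcancel x ⟨hx1, hx⟩).1.symm
      · simp only [hx1, if_false]
        rfl
  · apply ContinuousOn.union_of_isClosed _ _ h1 h2
    · exact L1.2.1.congr fun x hx => by simp [hx]
    · refine (hu'.continuousOn.mul L2.2.1).congr fun x hx => ?_
      by_cases hx1 : x ∈ Y1
      · simp only [hx1, if_true]
        exact (hcancel x ⟨hx1, hx⟩).2.symm
      · simp only [hx1, if_false]
        rfl
  · intro x hx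
    by_cases hx1 : x ∈ Y1
    · simp only [hx1, if_true]
      exact L1.2.2 x hx1
    · simp only [hx1, if_false]
      have hx2 : x ∈ Y2 := by
        rcases hx with h | h
        · exact absurd h hx1
        · exact h
      obtain ⟨n, l⟩ := L2.2.2 x hx2
      refine ⟨?_, l.smul _⟩
      rw [norm_mul, norm_mul, Circle.norm_coe, one_mul, one_mul]
      exact n

theorem LiftOn.mono {s : X → S2} {Y Y' : Set X} {a b : X → ℂ} (L : LiftOn s Y a b)
    (h : Y' ⊆ Y) : LiftOn s Y' a b :=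
  ⟨L.1.mono h, L.2.1.mono h, fun x hx => L.2.2 x (h hx)⟩

/-- extension by a constant of a function on a subset -/
noncomputable def ext {Y : Set X} {T : Type*} (t0 : T) (w : Y → T) : X → T := by
  classical exact fun x => if h : x ∈ Y then w ⟨x, h⟩ else t0

theorem ext_eq {Y : Set X} {T : Type*} (t0 : T) (w : Y → T) (x : Y) : ext t0 w x = w x := by
  unfold ext
  rw [dif_pos x.2]

theorem ext_contOn {Y : Set X} {T : Type*} [TopologicalSpace T] (t0 : T) {w : Y → T}
    (hw : Continuous w) : ContinuousOn (ext t0 w) Y := by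
  rw [continuousOn_iff_continuous_domRestrict]
  have : Y.domRestrict (ext t0 w) = w := by
    funext x
    exact ext_eq t0 w x
  rw [this]
  exact hw

theorem HasLift.liftOn {Y : Set X} {s : X → S2} {f : C(Y, S2)} (h : HasLift f)
    (hf : ∀ x : Y, f x = s x) : ∃ a b, LiftOn s Y a b := by
  obtain ⟨a, b, hab⟩ := h
  refine ⟨ext 0 a, ext 0 b, ext_contOn 0 a.continuous, ext_contOn 0 b.continuous, ?_⟩
  intro x hx
  have e1 := ext_eq (0 : ℂ) a ⟨x, hx⟩
  have e2 := ext_eq (0 : ℂ) b ⟨x, hx⟩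
  change ext (0 : ℂ) a x = _ at e1
  change ext (0 : ℂ) b x = _ at e2
  rw [e1, e2, ← hf ⟨x, hx⟩]
  exact hab ⟨x, hx⟩

theorem HasLog.logOn {Y : Set X} {g : X → Circle} {f : C(Y, Circle)} (h : HasLog f)
    (hf : ∀ x : Y, f x = g x) : ∃ r : X → ℝ, ContinuousOn r Y ∧ ∀ x ∈ Y, g x = Circle.exp (r x) := by
  obtain ⟨r, hr⟩ := h
  refine ⟨ext 0 r, ext_contOn 0 r.continuous, ?_⟩
  intro x hx
  have e1 := ext_eq (0 : ℝ) r ⟨x, hx⟩
  change ext (0 : ℝ) r x = _ at e1
  rw [e1, ← hf ⟨x, hx⟩]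
  exact hr ⟨x, hx⟩

end Pool.Agent.Helper427.Tri
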