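import Pool.Agent.Helper427.Tri.Glue

open Set Topology Metric

set_option linter.unusedSectionVars false

namespace Pool.Agent.Helper427.Tri

variable {Z : Type*} [NormedAddCommGroup Z] [NormedSpace ℝ Z] [ProperSpace Z]

/-- upper part inside the handlebody -/
def up (Z : Type*) [NormedAddCommGroup Z] (k : ℕ) : Set (handle Z k) := {p | 0 ≤ p.1.2.1}

/-- lower part inside the handlebody -/
def lo (Z : Type*) [NormedAddCommGroup Z] (k : ℕ) : Set (handle Z k) := {p | p.1.2.1 ≤ 0}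

theorem up_closed (k : ℕ) : IsClosed (up Z k) := isClosed_le continuous_const (by fun_prop)

theorem lo_closed (k : ℕ) : IsClosed (lo Z k) := isClosed_le (by fun_prop) continuous_const

theorem up_union (k : ℕ) : up Z k ∪ lo Z k = univ := by
  ext p
  simp only [mem_union, mem_univ, iff_true]
  exact le_total 0 p.1.2.1

/-- comparison maps -/
def jU (Z : Type*) [NormedAddCommGroup Z] (k : ℕ) : C(up Z k, upper Z k) :=
  ⟨fun p => ⟨p.1.1, p.1.2, p.2⟩, by fun_prop⟩

/-- comparison maps -/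
def jL (Z : Type*) [NormedAddCommGroup Z] (k : ℕ) : C(lo Z k, lower Z k) :=
  ⟨fun p => ⟨p.1.1, p.1.2, p.2⟩, by fun_prop⟩

/-- comparison maps -/
def iU (Z : Type*) [NormedAddCommGroup Z] (k : ℕ) : C(upper Z k, handle Z k) :=
  ⟨fun p => ⟨p.1, p.2.1⟩, by fun_prop⟩

/-- comparison maps -/
def iL (Z : Type*) [NormedAddCommGroup Z] (k : ℕ) : C(lower Z k, handle Z k) :=
  ⟨fun p => ⟨p.1, p.2.1⟩, by fun_prop⟩

/-- comparison maps -/
def iM (Z : Type*) [NormedAddCommGroup Z] (k : ℕ) : C(mid Z k, handle Z k) :=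
  ⟨fun p => ⟨p.1, p.2.1⟩, by fun_prop⟩

/-- comparison maps -/
def jM (Z : Type*) [NormedAddCommGroup Z] (k : ℕ) : C((up Z k ∩ lo Z k : Set (handle Z k)), mid Z k) :=
  ⟨fun p => ⟨p.1.1, p.1.2, le_antisymm p.2.2 p.2.1⟩, by fun_prop⟩

theorem handle_lift (k : ℕ) (f : C(handle Z k, S2)) : ∃ a b, LiftOn f univ a b := by
  obtain ⟨a1, b1, L1⟩ := ((upper_lift (f.comp (iU Z k))).comp (jU Z k)).liftOn (s := f)
    (fun x => rfl)
  obtain ⟨a2, b2, L2⟩ := ((lower_lift (f.comp (iL Z k))).comp (jL Z k)).liftOn (s := f)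
    (fun x => rfl)
  obtain ⟨g, hg, hg'⟩ := (L1.mono inter_subset_left).ratio (L2.mono (inter_subset_right :
    up Z k ∩ lo Z k ⊆ lo Z k))
  have hc : Continuous fun q : mid Z k => g (iM Z k q) := by
    have h1 : Continuous fun q : mid Z k => (⟨iM Z k q, by
      constructor
      · show 0 ≤ q.1.2.1
        rw [q.2.2]
      · show q.1.2.1 ≤ 0
        rw [q.2.2]⟩ : (up Z k ∩ lo Z k : Set (handle Z k))) :=
      Continuous.subtype_mk (iM Z k).continuous _
    exact (continuousOn_iff_continuous_domRestrict.mp hg).comp h1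
  have hlog := (mid_log ⟨_, hc⟩).comp (jM Z k)
  obtain ⟨r, hr, hr'⟩ := hlog.logOn (g := g) (fun x => rfl)
  obtain ⟨a, b, L⟩ := glue (up_closed k) (lo_closed k) L1 L2 (fun _ => 1) continuous_const r hr
    (fun x hx => by
      rw [one_mul, ← hr' x hx]
      exact hg' x hx)
  rw [up_union] at L
  exact ⟨a, b, L⟩

end Pool.Agent.Helper427.Tri
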