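import Pool.Agent.Helper427.Tri.Basic

open Set Topology Metric
open scoped ComplexConjugate

namespace Pool.Agent.Helper427.Tri

theorem anti_aux {p q h a1 a2 b1 b2 p' q' h' : ℝ} (hN : a1 ^ 2 + a2 ^ 2 + (b1 ^ 2 + b2 ^ 2) = 1)
    (e1 : (1 - h) * a1 = p * b1 + q * b2) (e2 : (1 - h) * a2 = p * b2 - q * b1)
    (e3 : p * a1 - q * a2 = (1 + h) * b1) (e4 : p * a2 + q * a1 = (1 + h) * b2)
    (f1 : (1 + h') * a1 + (p' * b1 + q' * b2) = 0) (f2 : (1 + h') * a2 + (p' * b2 - q' * b1) = 0)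
    (f3 : (p' * a1 - q' * a2) + (1 - h') * b1 = 0)
    (f4 : (p' * a2 + q' * a1) + (1 - h') * b2 = 0) : p' = -p ∧ q' = -q ∧ h' = -h := by
  have hp : p = 2 * (a1 * b1 + a2 * b2) := by
    linear_combination (-p) * hN + a1 * e3 + a2 * e4 - b1 * e1 - b2 * e2
  have hq : q = 2 * (a1 * b2 - a2 * b1) := by
    linear_combination (-q) * hN + a1 * e4 - a2 * e3 - b2 * e1 + b1 * e2
  have hh : h = (a1 ^ 2 + a2 ^ 2) - (b1 ^ 2 + b2 ^ 2) := by
    linear_combination (-h) * hN - a1 * e1 - a2 * e2 - b1 * e3 - b2 * e4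
  have hp' : p' = -(2 * (a1 * b1 + a2 * b2)) := by
    linear_combination (-p') * hN + a1 * f3 + a2 * f4 + b1 * f1 + b2 * f2
  have hq' : q' = -(2 * (a1 * b2 - a2 * b1)) := by
    linear_combination (-q') * hN + a1 * f4 - a2 * f3 + b2 * f1 - b1 * f2
  have hh' : h' = -((a1 ^ 2 + a2 ^ 2) - (b1 ^ 2 + b2 ^ 2)) := by
    linear_combination (-h') * hN + a1 * f1 + a2 * f2 - b1 * f3 - b2 * f4
  refine ⟨?_, ?_, ?_⟩
  · rw [hp', hp]
  · rw [hq', hq]
  · rw [hh', hh]

theorem norm_sq_re_im (a : ℂ) : ‖a‖ ^ 2 = a.re ^ 2 + a.im ^ 2 := by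
  rw [Complex.sq_norm, Complex.normSq_apply]; ring

theorem Line.re_im {s : S2} {a b : ℂ} (h : Line s a b) :
    (1 - hS s) * a.re = (wS s).re * b.re + (wS s).im * b.im ∧
    (1 - hS s) * a.im = (wS s).re * b.im - (wS s).im * b.re ∧
    (wS s).re * a.re - (wS s).im * a.im = (1 + hS s) * b.re ∧
    (wS s).re * a.im + (wS s).im * a.re = (1 + hS s) * b.im := by
  obtain ⟨h1, h2⟩ := h
  have e1 := congrArg Complex.re h1
  have e2 := congrArg Complex.im h1
  have e3 := congrArg Complex.re h2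
  have e4 := congrArg Complex.im h2
  simp at e1 e2 e3 e4
  refine ⟨by linarith, by linarith, by linarith, by linarith⟩

theorem anti {s s' : S2} {a b : ℂ} (hN : ‖a‖ ^ 2 + ‖b‖ ^ 2 = 1) (h : Line s a b)
    (h1 : (1 + (hS s' : ℂ)) * a + conj (wS s') * b = 0)
    (h2 : wS s' * a + (1 - (hS s' : ℂ)) * b = 0) : dist s s' = 2 := by
  obtain ⟨e1, e2, e3, e4⟩ := h.re_im
  have f1 := congrArg Complex.re h1
  have f2 := congrArg Complex.im h1
  have f3 := congrArg Complex.re h2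
  have f4 := congrArg Complex.im h2
  simp at f1 f2 f3 f4
  rw [norm_sq_re_im, norm_sq_re_im] at hN
  obtain ⟨hp, hq, hh⟩ := anti_aux hN e1 e2 e3 e4 (p' := (wS s').re) (q' := (wS s').im)
    (h' := hS s') (by linarith) (by linarith) (by linarith) (by linarith)
  have hs' : s' = -s := by
    apply Subtype.ext
    ext i
    show s'.1 i = -(s.1 i)
    fin_cases i
    · exact hp
    · exact hq
    · exact hh
  rw [hs', Subtype.dist_eq, dist_eq_norm]
  have : (s : EuclideanSpace ℝ (Fin 3)) - ((-s : S2) : EuclideanSpace ℝ (Fin 3))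
      = (2 : ℝ) • (s : EuclideanSpace ℝ (Fin 3)) := by
    show (s : EuclideanSpace ℝ (Fin 3)) - (-(s : EuclideanSpace ℝ (Fin 3))) = _
    rw [two_smul, sub_neg_eq_add]
  rw [this, norm_smul]
  have hs : ‖(s : EuclideanSpace ℝ (Fin 3))‖ = 1 := by
    have := s.2
    rwa [mem_sphere_zero_iff_norm] at this
  rw [hs]; norm_num

theorem HasLift.perturb {Y : Type*} [TopologicalSpace Y] (f f' : C(Y, S2)) (h : HasLift f)
    (hd : ∀ y, dist (f y) (f' y) < 2) : HasLift f' := by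
  obtain ⟨a, b, hab⟩ := h
  let a' : C(Y, ℂ) := ⟨fun y => (1 + (hS (f' y) : ℂ)) * a y + conj (wS (f' y)) * b y, by
    have h1 : Continuous fun y => hS (f' y) := hS_cont.comp f'.continuous
    have h2 : Continuous fun y => wS (f' y) := wS_cont.comp f'.continuous
    fun_prop⟩
  let b' : C(Y, ℂ) := ⟨fun y => wS (f' y) * a y + (1 - (hS (f' y) : ℂ)) * b y, by
    have h1 : Continuous fun y => hS (f' y) := hS_cont.comp f'.continuous
    have h2 : Continuous fun y => wS (f' y) := wS_cont.comp f'.continuous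
    fun_prop⟩
  have ha' : ∀ y, a' y = (1 + (hS (f' y) : ℂ)) * a y + conj (wS (f' y)) * b y := fun _ => rfl
  have hb' : ∀ y, b' y = wS (f' y) * a y + (1 - (hS (f' y) : ℂ)) * b y := fun _ => rfl
  have hpos : ∀ y, 0 < ‖a' y‖ ^ 2 + ‖b' y‖ ^ 2 := by
    intro y
    by_contra hcon
    have h1 : ‖a' y‖ ^ 2 = 0 := le_antisymm (by nlinarith [sq_nonneg ‖b' y‖]) (sq_nonneg _)
    have h2 : ‖b' y‖ ^ 2 = 0 := le_antisymm (by nlinarith [sq_nonneg ‖a' y‖]) (sq_nonneg _)
    rw [sq_eq_zero_iff, norm_eq_zero] at h1 h2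
    rw [ha'] at h1
    rw [hb'] at h2
    have := anti (hab y).1 (hab y).2 h1 h2
    have h3 := hd y
    rw [this] at h3
    exact lt_irrefl _ h3
  have hline : ∀ y, Line (f' y) (a' y) (b' y) := by
    intro y
    have hsp := wS_hS (f' y)
    have hww : conj (wS (f' y)) * wS (f' y) = 1 - (hS (f' y) : ℂ) ^ 2 := by
      rw [← Complex.normSq_eq_conj_mul_self, Complex.normSq_apply]
      have : (wS (f' y)).re * (wS (f' y)).re + (wS (f' y)).im * (wS (f' y)).im
          = 1 - hS (f' y) ^ 2 := by nlinarith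
      rw [this]
      push_cast
      ring
    rw [Line, ha', hb']
    constructor
    · linear_combination (-(a y)) * hww
    · linear_combination (b y) * hww
  let N : C(Y, ℝ) := ⟨fun y => Real.sqrt (‖a' y‖ ^ 2 + ‖b' y‖ ^ 2), by fun_prop⟩
  have hN : ∀ y, 0 < N y := fun y => Real.sqrt_pos.mpr (hpos y)
  have hN2 : ∀ y, N y ^ 2 = ‖a' y‖ ^ 2 + ‖b' y‖ ^ 2 := fun y => Real.sq_sqrt (hpos y).le
  refine ⟨⟨fun y => ((N y)⁻¹ : ℝ) • a' y, ?_⟩, ⟨fun y => ((N y)⁻¹ : ℝ) • b' y, ?_⟩, ?_⟩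
  · exact (N.continuous.inv₀ fun y => (hN y).ne').smul a'.continuous
  · exact (N.continuous.inv₀ fun y => (hN y).ne').smul b'.continuous
  · intro y
    refine ⟨?_, ?_⟩
    · show ‖((N y)⁻¹ : ℝ) • a' y‖ ^ 2 + ‖((N y)⁻¹ : ℝ) • b' y‖ ^ 2 = 1
      rw [norm_smul, norm_smul, mul_pow, mul_pow, ← mul_add, ← hN2 y, Real.norm_eq_abs, sq_abs,
        ← mul_pow, inv_mul_cancel₀ (hN y).ne', one_pow]
    · obtain ⟨l1, l2⟩ := hline y
      show Line (f' y) (((N y)⁻¹ : ℝ) • a' y) (((N y)⁻¹ : ℝ) • b' y)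
      constructor
      · rw [mul_smul_comm, mul_smul_comm, l1]
      · rw [mul_smul_comm, mul_smul_comm, l2]

theorem HasLift.homotopy {Y : Type*} [TopologicalSpace Y] [CompactSpace Y]
    (F : C(unitInterval × Y, S2)) (f0 f1 : C(Y, S2)) (h0 : ∀ y, F (0, y) = f0 y)
    (h1 : ∀ y, F (1, y) = f1 y) (hf : HasLift f0) : HasLift f1 :=
  homotopy_principle HasLift (by norm_num : (0 : ℝ) < 2) HasLift.perturb F f0 f1 h0 h1 hf

theorem HasLift.comp {Y Z : Type*} [TopologicalSpace Y] [TopologicalSpace Z] {c : C(Y, S2)}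
    (h : HasLift c) (g : C(Z, Y)) : HasLift (c.comp g) := by
  obtain ⟨a, b, hr⟩ := h
  exact ⟨a.comp g, b.comp g, fun z => hr (g z)⟩

theorem exists_line (s : S2) : ∃ a b : ℂ, ‖a‖ ^ 2 + ‖b‖ ^ 2 = 1 ∧ Line s a b := by
  have hsp := wS_hS s
  by_cases hh : hS s = -1
  · refine ⟨0, 1, by simp, ?_⟩
    have hw : wS s = 0 := by
      rw [hh] at hsp
      have h1 : (wS s).re = 0 := by nlinarith [sq_nonneg (wS s).re, sq_nonneg (wS s).im]
      have h2 : (wS s).im = 0 := by nlinarith [sq_nonneg (wS s).re, sq_nonneg (wS s).im]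
      exact Complex.ext h1 h2
    rw [Line, hw, hh]
    simp
  · have hge : -1 ≤ hS s := by nlinarith [sq_nonneg (wS s).re, sq_nonneg (wS s).im]
    have hpos : 0 < 1 + hS s := by
      rcases lt_or_eq_of_le hge with h | h
      · linarith
      · exact absurd h.symm hh
    have hww : conj (wS s) * wS s = 1 - (hS s : ℂ) ^ 2 := by
      rw [← Complex.normSq_eq_conj_mul_self, Complex.normSq_apply]
      have : (wS s).re * (wS s).re + (wS s).im * (wS s).im = 1 - hS s ^ 2 := by nlinarith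
      rw [this]
      push_cast
      ring
    set M : ℝ := Real.sqrt (2 * (1 + hS s)) with hM
    have hMp : 0 < M := Real.sqrt_pos.mpr (by linarith)
    have hM2 : M ^ 2 = 2 * (1 + hS s) := Real.sq_sqrt (by linarith)
    refine ⟨(M⁻¹ : ℝ) • (1 + (hS s : ℂ)), (M⁻¹ : ℝ) • wS s, ?_, ?_⟩
    · rw [norm_smul, norm_smul, mul_pow, mul_pow, ← mul_add, Real.norm_eq_abs, sq_abs,
        norm_sq_re_im, norm_sq_re_im]
      have : (1 + (hS s : ℂ)).re ^ 2 + (1 + (hS s : ℂ)).im ^ 2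
          + ((wS s).re ^ 2 + (wS s).im ^ 2) = M ^ 2 := by
        simp
        nlinarith
      rw [this, ← mul_pow, inv_mul_cancel₀ hMp.ne', one_pow]
    · constructor
      · rw [mul_smul_comm, mul_smul_comm]
        congr 1
        linear_combination (-1 : ℂ) * hww
      · rw [mul_smul_comm, mul_smul_comm]
        congr 1
        ring

theorem HasLift.const {Y : Type*} [TopologicalSpace Y] (s : S2) :
    HasLift (ContinuousMap.const Y s) := by
  obtain ⟨a, b, h⟩ := exists_line s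
  exact ⟨ContinuousMap.const Y a, ContinuousMap.const Y b, fun _ => h⟩

end Pool.Agent.Helper427.Tri
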