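import Pool.Agent.Helper427.Tri.Surf

open Set Topology Metric Module
open scoped Real ComplexConjugate Manifold ContDiff unitInterval

set_option linter.unusedSectionVars false

namespace Pool.Agent.Helper427.Tri

/-- the path `p` in the circle lifts to a path from `a` to `b` in the line -/
def Lg {z w : Circle} (p : Path z w) (a b : ℝ) : Prop :=
  ∃ R : Path a b, ∀ t, p t = Circle.exp (R t)

theorem Lg.of_fun {z w : Circle} {p : Path z w} (r : C(I, ℝ)) (h : ∀ t, p t = Circle.exp (r t)) :
    Lg p (r 0) (r 1) := ⟨⟨r, rfl, rfl⟩, h⟩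

theorem Lg.exists {z w : Circle} (p : Path z w) {a : ℝ} (ha : Circle.exp a = z) :
    ∃ b, Lg p a b := by
  obtain ⟨r, hr⟩ := interval_log (p : C(I, Circle))
  have h0 : z = Circle.exp (r 0) := by rw [← hr 0]; exact p.source.symm
  let r' : C(I, ℝ) := ⟨fun t => r t + (a - r 0), by fun_prop⟩
  have h : ∀ t, p t = Circle.exp (r' t) := by
    intro t
    show p t = Circle.exp (r t + (a - r 0))
    rw [Circle.exp_add, Circle.exp_sub, ha, ← h0, div_self', mul_one, ← hr t]
    rfl
  have h2 := Lg.of_fun r' h
  have e : r' 0 = a := by show r 0 + (a - r 0) = a; ring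
  rw [e] at h2
  exact ⟨_, h2⟩

theorem Lg.shift {z w : Circle} {p : Path z w} {a b : ℝ} (h : Lg p a b) (n : ℤ) :
    Lg p (a + 2 * π * n) (b + 2 * π * n) := by
  obtain ⟨R, hR⟩ := h
  have := Lg.of_fun (p := p) ⟨fun t => R t + 2 * π * n, by fun_prop⟩ (fun t => by
    show p t = Circle.exp (R t + 2 * π * n)
    rw [Circle.exp_add, exp_two_pi_int, mul_one, hR t])
  simpa using this

theorem Lg.trans {z w u : Circle} {p : Path z w} {q : Path w u} {a b c : ℝ} (h : Lg p a b)
    (h' : Lg q b c) : Lg (p.trans q) a c := by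
  obtain ⟨R, hR⟩ := h
  obtain ⟨R', hR'⟩ := h'
  refine ⟨R.trans R', fun t => ?_⟩
  rw [Path.trans_apply, Path.trans_apply]
  split_ifs
  · exact hR _
  · exact hR' _

theorem Lg.homotopic {z w : Circle} {p q : Path z w} {a b : ℝ} (h : Lg p a b) (h' : Lg q a b) :
    p.Homotopic q := by
  obtain ⟨R, hR⟩ := h
  obtain ⟨R', hR'⟩ := h'
  have h1 : R.Homotopic R' := SimplyConnectedSpace.paths_homotopic R R'
  obtain ⟨F⟩ := h1
  refine ⟨{ toFun := fun x => Circle.exp (F x)
            continuous_toFun := by fun_prop
            map_zero_left := fun t => ?_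
            map_one_left := fun t => ?_
            prop' := fun s t ht => ?_ }⟩
  · exact (congrArg Circle.exp (F.map_zero_left t)).trans (hR t).symm
  · exact (congrArg Circle.exp (F.map_one_left t)).trans (hR' t).symm
  · have := F.prop' s t ht
    show Circle.exp (F (s, t)) = p t
    rw [hR t]
    exact congrArg Circle.exp this

theorem Lg.end_eq {z w : Circle} {p : Path z w} {a b : ℝ} (h : Lg p a b) : Circle.exp b = w := by
  obtain ⟨R, hR⟩ := h
  have := hR 1
  rw [p.target, R.target] at this
  exact this.symm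

theorem Lg.wind {z w : Circle} {p : Path z w} {a : ℝ} {n : ℤ} (h : Lg p a (a + 2 * π * n)) :
    Wind p.toContinuousMap n := by
  obtain ⟨R, hR⟩ := h
  refine ⟨R.toContinuousMap, hR, ?_⟩
  show R 1 - R 0 = _
  rw [R.source, R.target]
  ring

theorem homotopic_prod {A B : Type*} [TopologicalSpace A] [TopologicalSpace B] {a a' : A × B}
    {p q : Path a a'} (h1 : (p.map continuous_fst).Homotopic (q.map continuous_fst))
    (h2 : (p.map continuous_snd).Homotopic (q.map continuous_snd)) : p.Homotopic q := by
  obtain ⟨F⟩ := h1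
  obtain ⟨G⟩ := h2
  refine ⟨{ toFun := fun x => (F x, G x)
            continuous_toFun := by fun_prop
            map_zero_left := fun t => ?_
            map_one_left := fun t => ?_
            prop' := fun s t ht => ?_ }⟩
  · exact Prod.ext (F.map_zero_left t) (G.map_zero_left t)
  · exact Prod.ext (F.map_one_left t) (G.map_one_left t)
  · have e1 := F.prop' s t ht
    have e2 := G.prop' s t ht
    exact Prod.ext e1 e2

end Pool.Agent.Helper427.Tri
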