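import Pool.Agent.Helper427.Tri.Top

open Set Topology Metric

set_option linter.unusedSectionVars false

namespace Pool.Agent.Helper427.Tri

variable {Z : Type*} [NormedAddCommGroup Z] [NormedSpace ℝ Z]

/-- lower half of the handlebody -/
def lower (Z : Type*) [NormedAddCommGroup Z] (k : ℕ) : Set (ℝ × ℝ × Z) :=
  {p | p ∈ handle Z k ∧ p.2.1 ≤ 0}

omit [NormedSpace ℝ Z] in
theorem handle_neg {k : ℕ} {p : ℝ × ℝ × Z} (h : p ∈ handle Z k) :
    ((p.1, -p.2.1, p.2.2) : ℝ × ℝ × Z) ∈ handle Z k := by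
  show planar k p.1 (-p.2.1) + ‖p.2.2‖ ^ 2 ≤ 0
  rw [planar_neg]
  exact h

/-- reflection -/
def reflL (Z : Type*) [NormedAddCommGroup Z] (k : ℕ) : C(lower Z k, upper Z k) :=
  ⟨fun p => ⟨(p.1.1, -p.1.2.1, p.1.2.2), handle_neg p.2.1, by
    have := p.2.2
    show 0 ≤ -p.1.2.1
    linarith⟩, by fun_prop⟩

/-- reflection -/
def reflU (Z : Type*) [NormedAddCommGroup Z] (k : ℕ) : C(upper Z k, lower Z k) :=
  ⟨fun p => ⟨(p.1.1, -p.1.2.1, p.1.2.2), handle_neg p.2.1, by
    have := p.2.2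
    show -p.1.2.1 ≤ 0
    linarith⟩, by fun_prop⟩

omit [NormedSpace ℝ Z] in
theorem refl_refl {k : ℕ} (p : lower Z k) : reflU Z k (reflL Z k p) = p := by
  apply Subtype.ext
  simp [reflU, reflL]

theorem lower_log [ProperSpace Z] {k : ℕ} (c : C(lower Z k, Circle)) : HasLog c := by
  have h := (upper_log (c.comp (reflU Z k))).comp (reflL Z k)
  have e : (c.comp (reflU Z k)).comp (reflL Z k) = c := by
    ext p
    show ((c (reflU Z k (reflL Z k p)) : Circle) : ℂ) = c p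
    rw [refl_refl]
  rwa [e] at h

theorem lower_lift [ProperSpace Z] {k : ℕ} (c : C(lower Z k, S2)) : HasLift c := by
  have h := (upper_lift (c.comp (reflU Z k))).comp (reflL Z k)
  have e : (c.comp (reflU Z k)).comp (reflL Z k) = c := by
    apply ContinuousMap.ext
    intro p
    show c (reflU Z k (reflL Z k p)) = c p
    rw [refl_refl]
  rwa [e] at h

/-! ### the middle slice -/

theorem mid_range {k : ℕ} (p : mid Z k) :
    ∃ n : ℕ, n ≤ k ∧ 4 * (n : ℝ) + 1 ≤ p.1.1 ∧ p.1.1 ≤ 4 * n + 3 := by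
  have h := handle_InD p.2.1
  rw [p.2.2] at h
  exact InD_zero h

theorem floor_of {n : ℕ} {x : ℝ} (h1 : 4 * (n : ℝ) ≤ x) (h2 : x < 4 * n + 4) : ⌊x / 4⌋₊ = n := by
  have hn : (0 : ℝ) ≤ n := Nat.cast_nonneg n
  rw [Nat.floor_eq_iff (by linarith)]
  constructor <;> linarith

theorem mid_floor {k : ℕ} (p : mid Z k) :
    ⌊p.1.1 / 4⌋₊ ≤ k ∧ 4 * (⌊p.1.1 / 4⌋₊ : ℝ) + 1 ≤ p.1.1 ∧ p.1.1 ≤ 4 * ⌊p.1.1 / 4⌋₊ + 3 := by
  obtain ⟨n, hn, h1, h2⟩ := mid_range p
  rw [floor_of (n := n) (by linarith) (by linarith)]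
  exact ⟨hn, h1, h2⟩

theorem mid_center {k : ℕ} {n : ℕ} (hn : n ≤ k) : ((4 * (n : ℝ) + 2, 0, 0) : ℝ × ℝ × Z) ∈ mid Z k :=
  ⟨mem_handle_zero (InD_axis hn (by linarith) (by linarith)), rfl⟩

/-- the component number of a point of the middle slice -/
noncomputable def comp {k : ℕ} (p : mid Z k) : ℕ := ⌊p.1.1 / 4⌋₊

theorem comp_loc (k : ℕ) : IsLocallyConstant (comp : mid Z k → ℕ) := by
  rw [IsLocallyConstant.iff_eventually_eq]
  intro p
  obtain ⟨n, hn, h1, h2⟩ := mid_range p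
  have hc : Continuous fun q : mid Z k => q.1.1 := by fun_prop
  have : ∀ᶠ q in 𝓝 p, q.1.1 ∈ Ioo (4 * (n : ℝ)) (4 * n + 4) :=
    hc.continuousAt.eventually (Ioo_mem_nhds (by linarith) (by linarith))
  filter_upwards [this] with q hq
  unfold comp
  have a1 : ⌊p.1.1 / 4⌋₊ = n := floor_of (by linarith) (by linarith)
  have a2 : ⌊q.1.1 / 4⌋₊ = n := floor_of hq.1.le hq.2
  rw [a1, a2]

theorem comp_le {k : ℕ} (p : mid Z k) : comp p ≤ k := (mid_floor p).1

/-- retraction of the middle slice onto the centres -/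
noncomputable def rMid (Z : Type*) [NormedAddCommGroup Z] [NormedSpace ℝ Z] (k : ℕ) :
    C(mid Z k, mid Z k) :=
  ⟨fun p => ⟨(4 * (comp p : ℝ) + 2, 0, 0), mid_center (comp_le p)⟩, by
    apply Continuous.subtype_mk
    have h1 : Continuous fun p : mid Z k => (comp p : ℝ) :=
      ((comp_loc k).comp (fun n : ℕ => (n : ℝ))).continuous
    exact ((continuous_const.mul h1).add continuous_const).prodMk continuous_const⟩

/-- projection of the middle slice to the axis -/
noncomputable def mOne (Z : Type*) [NormedAddCommGroup Z] [NormedSpace ℝ Z] (k : ℕ) :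
    C(mid Z k, mid Z k) :=
  ⟨fun p => ⟨(p.1.1, 0, 0), by
    have h := handle_InD p.2.1
    rw [p.2.2] at h
    exact ⟨mem_handle_zero h, rfl⟩⟩, by fun_prop⟩

open unitInterval

theorem mid_h1 (k : ℕ) : (ContinuousMap.id (mid Z k)).Homotopic (mOne Z k) := by
  refine ⟨⟨⟨fun q => ⟨(q.2.1.1, 0, (1 - (q.1 : ℝ)) • q.2.1.2.2), ?_, rfl⟩, ?_⟩, ?_, ?_⟩⟩
  · have h := q.2.2.1
    have h0 := q.2.2.2
    have := mem_handle_smul (Z := Z) (k := k) (x := q.2.1.1) (y := q.2.1.2.1) (z := q.2.1.2.2) h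
      (s := 1 - (q.1 : ℝ)) (by linarith [q.1.2.2]) (by linarith [q.1.2.1])
    rwa [h0] at this
  · fun_prop
  · intro p
    apply Subtype.ext
    have h0 : p.1.2.1 = 0 := p.2.2
    refine Prod.ext ?_ (Prod.ext ?_ ?_)
    · simp
    · simp [h0]
    · simp
  · intro p
    apply Subtype.ext
    simp [mOne]

theorem mid_h2 (k : ℕ) : (mOne Z k).Homotopic (rMid Z k) := by
  refine ⟨⟨⟨fun q => ⟨((1 - (q.1 : ℝ)) * q.2.1.1 + (q.1 : ℝ) * (4 * (comp q.2 : ℝ) + 2), 0, 0),
    ?_, rfl⟩, ?_⟩, ?_, ?_⟩⟩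
  · apply mem_handle_zero
    obtain ⟨hn, h1, h2⟩ := mid_floor q.2
    have h3 := q.1.2.1
    have h4 := q.1.2.2
    refine InD_axis hn ?_ ?_
    · show 4 * (comp q.2 : ℝ) + 1 ≤ _
      change 4 * (comp q.2 : ℝ) + 1 ≤ q.2.1.1 at h1
      nlinarith
    · show _ ≤ 4 * (comp q.2 : ℝ) + 3
      change q.2.1.1 ≤ 4 * (comp q.2 : ℝ) + 3 at h2
      nlinarith
  · apply Continuous.subtype_mk
    have h1 : Continuous fun p : mid Z k => (comp p : ℝ) :=
      ((comp_loc k).comp (fun n : ℕ => (n : ℝ))).continuous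
    have h2 : Continuous fun q : I × mid Z k => (comp q.2 : ℝ) := h1.comp continuous_snd
    have h3 : Continuous fun q : I × mid Z k =>
        (1 - (q.1 : ℝ)) * q.2.1.1 + (q.1 : ℝ) * (4 * (comp q.2 : ℝ) + 2) := by fun_prop
    exact h3.prodMk continuous_const
  · intro p
    apply Subtype.ext
    simp [mOne]
  · intro p
    apply Subtype.ext
    simp [rMid]

theorem mid_retr (k : ℕ) : (ContinuousMap.id (mid Z k)).Homotopic (rMid Z k) :=
  (mid_h1 k).trans (mid_h2 k)

theorem mid_log [ProperSpace Z] {k : ℕ} (c : C(mid Z k, Circle)) : HasLog c := by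
  obtain ⟨H⟩ := (mid_retr (Z := Z) k).symm
  refine HasLog.homotopy (c.comp H.toContinuousMap) (c.comp (rMid Z k)) c ?_ ?_ ?_
  · intro y
    show c (H (0, y)) = _
    rw [H.apply_zero]
    rfl
  · intro y
    show c (H (1, y)) = _
    rw [H.apply_one]
    rfl
  · have hloc : IsLocallyConstant fun p : mid Z k => Complex.arg (c (rMid Z k p)) := by
      rw [IsLocallyConstant.iff_eventually_eq]
      intro p
      have h1 := (IsLocallyConstant.iff_eventually_eq _).mp (comp_loc (Z := Z) k) p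
      filter_upwards [h1] with q hq
      have : rMid Z k q = rMid Z k p := by
        apply Subtype.ext
        show ((4 * (comp q : ℝ) + 2, 0, 0) : ℝ × ℝ × Z) = (4 * (comp p : ℝ) + 2, 0, 0)
        rw [hq]
      rw [this]
    refine ⟨⟨fun p => Complex.arg (c (rMid Z k p)), hloc.continuous⟩, fun p => ?_⟩
    show c (rMid Z k p) = Circle.exp (Complex.arg (c (rMid Z k p)))
    rw [Circle.exp_arg]

/-- An integer valued continuous function on the middle slice depends only on the component. -/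
theorem mid_const {k : ℕ} {N : Type*} [TopologicalSpace N] [DiscreteTopology N]
    (m : C(mid Z k, N)) (p : mid Z k) : m p = m (rMid Z k p) := by
  obtain ⟨H⟩ := mid_retr (Z := Z) k
  have hc : Continuous fun t : I => m (H (t, p)) := by fun_prop
  have h := PreconnectedSpace.constant inferInstance hc (x := 0) (y := 1)
  rw [H.apply_zero, H.apply_one] at h
  exact h

end Pool.Agent.Helper427.Tri
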