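import Pool.Agent.Helper427.Tri.Lines

open Set Topology Metric

namespace Pool.Agent.Helper427.Tri

/-- The disc with `k` holes in terms of inequalities. -/
def InD (k : ℕ) (x y : ℝ) : Prop :=
  (x - 2 * (k + 1)) ^ 2 + y ^ 2 ≤ (2 * k + 1) ^ 2 ∧
    ∀ j : ℕ, j < k → 1 ≤ (x - 4 * (j + 1)) ^ 2 + y ^ 2

theorem inner {k j : ℕ} (hj : j < k) {x y : ℝ} (h : (x - 4 * (j + 1)) ^ 2 + y ^ 2 ≤ 1) :
    (x - 2 * (k + 1)) ^ 2 + y ^ 2 < (2 * k + 1) ^ 2 := by
  have hj' : (j : ℝ) + 1 ≤ k := by exact_mod_cast hj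
  have hj0 : (0 : ℝ) ≤ j := Nat.cast_nonneg j
  have hx1 : x - 4 * (j + 1) ≤ 1 := by nlinarith [sq_nonneg y]
  have hx2 : -1 ≤ x - 4 * (j + 1) := by nlinarith [sq_nonneg y]
  set c : ℝ := 4 * (j + 1) - 2 * (k + 1) with hc
  have hc1 : c ≤ 2 * k - 2 := by rw [hc]; linarith
  have hc2 : -(2 * k - 2) ≤ c := by rw [hc]; linarith
  have e : x - 2 * (k + 1) = (x - 4 * (j + 1)) + c := by rw [hc]; ring
  rw [e]
  set u : ℝ := x - 4 * (j + 1)
  have h1 : u * c ≤ 2 * k - 2 := by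
    nlinarith [mul_nonneg (sub_nonneg.mpr hx1) (sub_nonneg.mpr hc2), mul_nonneg (sub_nonneg.mpr hx2)
      (sub_nonneg.mpr hc1), mul_nonneg (sub_nonneg.mpr hx1) (sub_nonneg.mpr hc1),
      mul_nonneg (sub_nonneg.mpr hx2) (sub_nonneg.mpr hc2)]
  have h2 : c ^ 2 ≤ (2 * k - 2) ^ 2 := by nlinarith
  nlinarith

theorem planar_nonpos_iff {k : ℕ} {x y : ℝ} : planar k x y ≤ 0 ↔ InD k x y := by
  unfold planar
  constructor
  · intro h
    have key : ∀ j : ℕ, j < k → 1 ≤ (x - 4 * (j + 1)) ^ 2 + y ^ 2 := by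
      intro j hj
      by_contra hcon
      push Not at hcon
      have hB := inner hj hcon.le
      have hx1 : x - 4 * (j + 1) < 1 := by nlinarith [sq_nonneg y]
      have hx2 : -1 < x - 4 * (j + 1) := by nlinarith [sq_nonneg y]
      have hpos : 0 < ∏ i ∈ (Finset.range k).erase j, ((x - 4 * ((i : ℝ) + 1)) ^ 2 + y ^ 2 - 1) := by
        apply Finset.prod_pos
        intro i hi
        have hij : i ≠ j := (Finset.mem_erase.mp hi).1
        rcases lt_or_gt_of_ne hij with h1 | h1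
        · have : (i : ℝ) + 1 ≤ j := by exact_mod_cast h1
          nlinarith [sq_nonneg y]
        · have : (j : ℝ) + 1 ≤ i := by exact_mod_cast h1
          nlinarith [sq_nonneg y]
      have hprod := Finset.mul_prod_erase (Finset.range k)
        (fun i : ℕ => ((x - 4 * ((i : ℝ) + 1)) ^ 2 + y ^ 2 - 1)) (Finset.mem_range.mpr hj)
      rw [← hprod] at h
      have hneg : ((x - 4 * ((j : ℝ) + 1)) ^ 2 + y ^ 2 - 1) *
          ∏ i ∈ (Finset.range k).erase j, ((x - 4 * ((i : ℝ) + 1)) ^ 2 + y ^ 2 - 1) < 0 :=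
        mul_neg_of_neg_of_pos (by linarith) hpos
      have := mul_pos_of_neg_of_neg (sub_neg.mpr hB) hneg
      linarith
    refine ⟨?_, key⟩
    by_contra hcon
    push Not at hcon
    have hpos : 0 < ∏ i ∈ Finset.range k, ((x - 4 * ((i : ℝ) + 1)) ^ 2 + y ^ 2 - 1) := by
      apply Finset.prod_pos
      intro i hi
      have hi' := Finset.mem_range.mp hi
      by_contra hc
      push Not at hc
      have := inner hi' (x := x) (y := y) (by linarith)
      linarith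
    have := mul_pos (sub_pos.mpr hcon) hpos
    linarith
  · rintro ⟨h1, h2⟩
    apply mul_nonpos_of_nonpos_of_nonneg (by linarith)
    apply Finset.prod_nonneg
    intro i hi
    have := h2 i (Finset.mem_range.mp hi)
    linarith

theorem planar_cont (k : ℕ) : Continuous fun p : ℝ × ℝ => planar k p.1 p.2 := by
  unfold planar
  fun_prop

theorem planar_neg (k : ℕ) (x y : ℝ) : planar k x (-y) = planar k x y := by
  unfold planar
  simp

theorem InD_neg {k : ℕ} {x y : ℝ} : InD k x (-y) ↔ InD k x y := by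
  unfold InD
  simp

/-- The top of the big disc. -/
noncomputable def top (k : ℕ) (x : ℝ) : ℝ := Real.sqrt ((2 * k + 1) ^ 2 - (x - 2 * (k + 1)) ^ 2)

theorem top_cont (k : ℕ) : Continuous (top k) := by
  unfold top
  fun_prop

theorem top_nonneg (k : ℕ) (x : ℝ) : 0 ≤ top k x := Real.sqrt_nonneg _

theorem InD.le_top {k : ℕ} {x y : ℝ} (h : InD k x y) : y ≤ top k x := by
  unfold top
  apply Real.le_sqrt_of_sq_le
  linarith [h.1]

theorem InD.up {k : ℕ} {x y y' : ℝ} (h : InD k x y) (hy : 0 ≤ y) (h1 : y ≤ y')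
    (h2 : y' ≤ top k x) : InD k x y' := by
  have hsq : y ^ 2 ≤ y' ^ 2 := by nlinarith
  refine ⟨?_, fun j hj => ?_⟩
  · have h3 : (top k x) ^ 2 = (2 * k + 1) ^ 2 - (x - 2 * (k + 1)) ^ 2 := by
      unfold top
      apply Real.sq_sqrt
      nlinarith [h.1, sq_nonneg y]
    have : y' ^ 2 ≤ top k x ^ 2 := by
      have := hy.trans h1
      nlinarith
    linarith
  · linarith [h.2 j hj]

theorem InD_top {k : ℕ} {x : ℝ} (h : (x - 2 * (k + 1)) ^ 2 ≤ (2 * k + 1) ^ 2) :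
    InD k x (top k x) := by
  have h3 : (top k x) ^ 2 = (2 * k + 1) ^ 2 - (x - 2 * (k + 1)) ^ 2 := by
    unfold top
    apply Real.sq_sqrt
    linarith
  refine ⟨by linarith, fun j hj => ?_⟩
  by_contra hcon
  push Not at hcon
  have := inner hj hcon.le
  linarith

theorem InD.sq_le {k : ℕ} {x y : ℝ} (h : InD k x y) : (x - 2 * (k + 1)) ^ 2 ≤ (2 * k + 1) ^ 2 := by
  nlinarith [h.1, sq_nonneg y]

theorem InD_zero {k : ℕ} {x : ℝ} (h : InD k x 0) :
    ∃ n : ℕ, n ≤ k ∧ 4 * (n : ℝ) + 1 ≤ x ∧ x ≤ 4 * n + 3 := by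
  obtain ⟨h1, h2⟩ := h
  have hk0 : (0 : ℝ) ≤ k := Nat.cast_nonneg k
  have hx1 : 1 ≤ x := by nlinarith
  have hx2 : x ≤ 4 * k + 3 := by nlinarith
  refine ⟨⌊x / 4⌋₊, ?_, ?_, ?_⟩
  · have : x / 4 < (k : ℝ) + 1 := by linarith
    have h3 : ⌊x / 4⌋₊ < k + 1 := by
      rw [Nat.floor_lt (by positivity)]
      push_cast
      exact this
    omega
  · have hf := Nat.floor_le (a := x / 4) (by positivity)
    rcases Nat.eq_zero_or_pos ⌊x / 4⌋₊ with h0 | h0
    · rw [h0]; push_cast; linarith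
    · have hlt : ⌊x / 4⌋₊ - 1 < k := by
        have : x / 4 < (k : ℝ) + 1 := by linarith
        have h3 : ⌊x / 4⌋₊ < k + 1 := by
          rw [Nat.floor_lt (by positivity)]
          push_cast
          exact this
        omega
      have h3 := h2 _ hlt
      have h4 : ((⌊x / 4⌋₊ - 1 : ℕ) : ℝ) + 1 = (⌊x / 4⌋₊ : ℝ) := by
        have : ⌊x / 4⌋₊ - 1 + 1 = ⌊x / 4⌋₊ := by omega
        exact_mod_cast this
      rw [h4] at h3
      by_contra hcon
      push Not at hcon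
      nlinarith
  · have hf := Nat.lt_floor_add_one (x / 4)
    by_contra hcon
    push Not at hcon
    have hlt : ⌊x / 4⌋₊ < k := by
      by_contra hk
      push Not at hk
      have : (k : ℝ) ≤ ⌊x / 4⌋₊ := by exact_mod_cast hk
      linarith
    have h3 := h2 _ hlt
    nlinarith

theorem InD_axis {k n : ℕ} (hn : n ≤ k) {x : ℝ} (h1 : 4 * (n : ℝ) + 1 ≤ x) (h2 : x ≤ 4 * n + 3) :
    InD k x 0 := by
  have hn' : (n : ℝ) ≤ k := by exact_mod_cast hn
  have hn0 : (0 : ℝ) ≤ n := Nat.cast_nonneg n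
  refine ⟨?_, fun j hj => ?_⟩
  · have a1 : x - 2 * (k + 1) ≤ 2 * k + 1 := by linarith
    have a2 : -(2 * (k : ℝ) + 1) ≤ x - 2 * (k + 1) := by linarith
    nlinarith
  · rcases lt_or_ge j n with h | h
    · have : (j : ℝ) + 1 ≤ n := by exact_mod_cast h
      nlinarith
    · have : (n : ℝ) ≤ j := by exact_mod_cast h
      nlinarith

end Pool.Agent.Helper427.Tri
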