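import Pool.Agent.Helper427.Tri.Wind
import Pool.Agent.Helper427.Tri.LiftHandle

open Set Topology Metric
open scoped Real

set_option linter.unusedSectionVars false

namespace Pool.Agent.Helper427.Tri

/-- centre points of the middle slice of the genus two handlebody -/
noncomputable def ctr (j : Fin 3) : mid ℝ 2 :=
  ⟨(4 * ((j : ℕ) : ℝ) + 2, 0, 0), mid_center (by have := j.2; omega)⟩

/-- inclusion of the middle slice -/
def mU : C(mid ℝ 2, upper ℝ 2) := ⟨fun p => ⟨p.1, p.2.1, p.2.2.ge⟩, by fun_prop⟩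

/-- inclusion of the middle slice -/
def mL : C(mid ℝ 2, lower ℝ 2) := ⟨fun p => ⟨p.1, p.2.1, p.2.2.le⟩, by fun_prop⟩

/-- monodromy data -/
def Mon (c : C(handle ℝ 2, Circle)) (m : Fin 3 → ℤ) : Prop :=
  ∃ (p : C(upper ℝ 2, ℝ)) (q : C(lower ℝ 2, ℝ)),
    (∀ x, c (iU ℝ 2 x) = Circle.exp (p x)) ∧ (∀ x, c (iL ℝ 2 x) = Circle.exp (q x)) ∧
    ∀ j, p (mU (ctr j)) - q (mL (ctr j)) = 2 * π * m j

theorem Mon.exists (c : C(handle ℝ 2, Circle)) : ∃ m, Mon c m := by
  obtain ⟨p, hp⟩ := upper_log (c.comp (iU ℝ 2))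
  obtain ⟨q, hq⟩ := lower_log (c.comp (iL ℝ 2))
  have : ∀ j : Fin 3, ∃ n : ℤ, p (mU (ctr j)) - q (mL (ctr j)) = 2 * π * n := by
    intro j
    apply exp_eq_iff
    have e1 : c (iU ℝ 2 (mU (ctr j))) = Circle.exp (p (mU (ctr j))) := hp _
    have e2 : c (iL ℝ 2 (mL (ctr j))) = Circle.exp (q (mL (ctr j))) := hq _
    rw [← e1, ← e2]
    rfl
  choose m hm using this
  exact ⟨m, p, q, hp, hq, hm⟩

theorem Mon.mul {c c' : C(handle ℝ 2, Circle)} {m m' : Fin 3 → ℤ} (h : Mon c m)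
    (h' : Mon c' m') : Mon (c * c') (m + m') := by
  obtain ⟨p, q, hp, hq, hm⟩ := h
  obtain ⟨p', q', hp', hq', hm'⟩ := h'
  refine ⟨p + p', q + q', fun x => ?_, fun x => ?_, fun j => ?_⟩
  · show c (iU ℝ 2 x) * c' (iU ℝ 2 x) = Circle.exp (p x + p' x)
    rw [Circle.exp_add, hp, hp']
  · show c (iL ℝ 2 x) * c' (iL ℝ 2 x) = Circle.exp (q x + q' x)
    rw [Circle.exp_add, hq, hq']
  · show (p (mU (ctr j)) + p' (mU (ctr j))) - (q (mL (ctr j)) + q' (mL (ctr j)))
      = 2 * π * ((m j + m' j : ℤ) : ℝ)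
    push_cast
    linarith [hm j, hm' j]

theorem Mon.zpow {c : C(handle ℝ 2, Circle)} {m : Fin 3 → ℤ} (h : Mon c m) (k : ℤ) :
    Mon (c ^ k) (k • m) := by
  obtain ⟨p, q, hp, hq, hm⟩ := h
  refine ⟨(k : ℝ) • p, (k : ℝ) • q, fun x => ?_, fun x => ?_, fun j => ?_⟩
  · show (c (iU ℝ 2 x)) ^ k = Circle.exp ((k : ℝ) * p x)
    rw [Circle.exp_intCast_mul, hp]
  · show (c (iL ℝ 2 x)) ^ k = Circle.exp ((k : ℝ) * q x)
    rw [Circle.exp_intCast_mul, hq]
  · show (k : ℝ) * p (mU (ctr j)) - (k : ℝ) * q (mL (ctr j)) = 2 * π * ((k • m j : ℤ) : ℝ)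
    rw [← mul_sub, hm j, smul_eq_mul]
    push_cast
    ring

theorem Mon.log {c : C(handle ℝ 2, Circle)} {m : Fin 3 → ℤ} (h : Mon c m)
    (h1 : m 1 = m 0) (h2 : m 2 = m 0) : HasLog c := by
  classical
  obtain ⟨p, q, hp, hq, hm⟩ := h
  have hall : ∀ j, m j = m 0 := by
    intro j
    fin_cases j
    · rfl
    · exact h1
    · exact h2
  have key : ∀ x : mid ℝ 2, p (mU x) - q (mL x) = 2 * π * m 0 := by
    intro x
    obtain ⟨H⟩ := mid_retr (Z := ℝ) 2
    have hc : Continuous fun t : unitInterval => p (mU (H (t, x))) - q (mL (H (t, x))) := by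
      fun_prop
    have hint : ∀ t : unitInterval, ∃ n : ℤ, p (mU (H (t, x))) - q (mL (H (t, x))) = 2 * π * n := by
      intro t
      apply exp_eq_iff
      rw [← hp, ← hq]
      rfl
    have h3 := const_of_int hc hint 0 1
    rw [H.apply_zero, H.apply_one] at h3
    have h4 : p (mU x) - q (mL x) = p (mU (rMid ℝ 2 x)) - q (mL (rMid ℝ 2 x)) := h3
    have hlt : comp x < 3 := by
      have := comp_le x
      omega
    have h5 : rMid ℝ 2 x = ctr ⟨comp x, hlt⟩ := rfl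
    rw [h4, h5, hm, hall]
  let R : handle ℝ 2 → ℝ := fun x => if h : 0 ≤ x.1.2.1 then p ⟨x.1, x.2, h⟩
    else q ⟨x.1, x.2, (not_le.mp h).le⟩ + 2 * π * m 0
  have hRu : ∀ (x : handle ℝ 2) (h : 0 ≤ x.1.2.1), R x = p ⟨x.1, x.2, h⟩ := by
    intro x h
    show (if h : 0 ≤ x.1.2.1 then p ⟨x.1, x.2, h⟩
      else q ⟨x.1, x.2, (not_le.mp h).le⟩ + 2 * π * m 0) = _
    rw [dif_pos h]
  have hRl : ∀ (x : handle ℝ 2) (h : x.1.2.1 ≤ 0), R x = q ⟨x.1, x.2, h⟩ + 2 * π * m 0 := by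
    intro x h
    by_cases h0 : 0 ≤ x.1.2.1
    · rw [hRu x h0]
      have := key ⟨x.1, x.2, le_antisymm h h0⟩
      have e1 : mU ⟨x.1, x.2, le_antisymm h h0⟩ = ⟨x.1, x.2, h0⟩ := rfl
      have e2 : mL ⟨x.1, x.2, le_antisymm h h0⟩ = ⟨x.1, x.2, h⟩ := rfl
      rw [e1, e2] at this
      linarith
    · show (if h : 0 ≤ x.1.2.1 then p ⟨x.1, x.2, h⟩
        else q ⟨x.1, x.2, (not_le.mp h).le⟩ + 2 * π * m 0) = _
      rw [dif_neg h0]
  have hRc : Continuous R := by
    rw [← continuousOn_univ, ← up_union (Z := ℝ) 2]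
    apply ContinuousOn.union_of_isClosed _ _ (up_closed 2) (lo_closed 2)
    · rw [continuousOn_iff_continuous_domRestrict]
      have : (up ℝ 2).domRestrict R = fun x => p (jU ℝ 2 x) := by
        funext x
        exact hRu x.1 x.2
      rw [this]
      fun_prop
    · rw [continuousOn_iff_continuous_domRestrict]
      have : (lo ℝ 2).domRestrict R = fun x => q (jL ℝ 2 x) + 2 * π * m 0 := by
        funext x
        exact hRl x.1 x.2
      rw [this]
      fun_prop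
  refine ⟨⟨R, hRc⟩, fun x => ?_⟩
  show c x = Circle.exp (R x)
  rcases le_total 0 x.1.2.1 with h | h
  · rw [hRu x h, ← hp]
    rfl
  · rw [hRl x h, Circle.exp_add, exp_two_pi_int, mul_one, ← hq]
    rfl

open unitInterval

/-- On the genus two handlebody with two circle valued functions whose windings along two loops
form the identity matrix, every circle valued function is a monomial in them times an
exponential. -/
theorem classify {t1 t2 : C(handle ℝ 2, Circle)} {l1 l2 : C(I, handle ℝ 2)}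
    (hl1 : l1 0 = l1 1) (hl2 : l2 0 = l2 1) (h11 : Wind (t1.comp l1) 1) (h12 : Wind (t1.comp l2) 0)
    (h21 : Wind (t2.comp l1) 0) (h22 : Wind (t2.comp l2) 1) (c : C(handle ℝ 2, Circle)) :
    ∃ (a b : ℤ) (r : C(handle ℝ 2, ℝ)), ∀ x, c x = t1 x ^ a * t2 x ^ b * Circle.exp (r x) := by
  -- windings of logarithms vanish
  have hlog : ∀ (u : C(handle ℝ 2, Circle)) (l : C(I, handle ℝ 2)), l 0 = l 1 → HasLog u →
      Wind (u.comp l) 0 := by
    rintro u l hl ⟨r, hr⟩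
    refine Wind.of_log (r := r.comp l) (fun t => hr (l t)) ?_
    show r (l 0) = r (l 1)
    rw [hl]
  -- the class of a function
  have key : ∀ (u : C(handle ℝ 2, Circle)) (m : Fin 3 → ℤ) (n1 n2 : ℤ), Mon u m →
      Wind (u.comp l1) n1 → Wind (u.comp l2) n2 → m 1 = m 0 → m 2 = m 0 → n1 = 0 ∧ n2 = 0 := by
    intro u m n1 n2 hm w1 w2 e1 e2
    have hL := hm.log e1 e2
    exact ⟨w1.unique (hlog u l1 hl1 hL), w2.unique (hlog u l2 hl2 hL)⟩
  obtain ⟨s, hs⟩ := Mon.exists t1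
  obtain ⟨t, ht⟩ := Mon.exists t2
  have wcomb : ∀ (u v w : C(handle ℝ 2, Circle)) (α β δ : ℤ) (l : C(I, handle ℝ 2)) (x y z : ℤ),
      Wind (u.comp l) x → Wind (v.comp l) y → Wind (w.comp l) z →
      Wind ((u ^ α * v ^ β * w ^ δ).comp l) (α * x + β * y + δ * z) := by
    intro u v w α β δ l x y z h1 h2 h3
    have := ((h1.zpow α).mul (h2.zpow β)).mul (h3.zpow δ)
    exact this
  obtain ⟨a, ha⟩ := Wind.exists (c := c.comp l1) (by
    show c (l1 0) = c (l1 1)
    rw [hl1])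
  obtain ⟨b, hb⟩ := Wind.exists (c := c.comp l2) (by
    show c (l2 0) = c (l2 1)
    rw [hl2])
  -- corrected function
  set u : C(handle ℝ 2, Circle) := t1 ^ (-a) * t2 ^ (-b) * c ^ (1 : ℤ) with hu
  have wu1 : Wind (u.comp l1) 0 := by
    have := wcomb t1 t2 c (-a) (-b) 1 l1 1 0 a h11 h21 ha
    have e : -a * 1 + -b * 0 + 1 * a = 0 := by ring
    rwa [e] at this
  have wu2 : Wind (u.comp l2) 0 := by
    have := wcomb t1 t2 c (-a) (-b) 1 l2 0 1 b h12 h22 hb
    have e : -a * 0 + -b * 1 + 1 * b = 0 := by ring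
    rwa [e] at this
  obtain ⟨v, hv⟩ := Mon.exists u
  -- relations
  have rel : ∀ α β δ : ℤ,
      α * (s 1 - s 0) + β * (t 1 - t 0) + δ * (v 1 - v 0) = 0 →
      α * (s 2 - s 0) + β * (t 2 - t 0) + δ * (v 2 - v 0) = 0 → α = 0 ∧ β = 0 := by
    intro α β δ e1 e2
    have hM := ((hs.zpow α).mul (ht.zpow β)).mul (hv.zpow δ)
    have w1 := wcomb t1 t2 u α β δ l1 1 0 0 h11 h21 wu1
    have w2 := wcomb t1 t2 u α β δ l2 0 1 0 h12 h22 wu2
    have := key _ _ _ _ hM w1 w2 (by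
      simp only [Pi.add_apply, Pi.smul_apply, smul_eq_mul]
      linarith) (by
      simp only [Pi.add_apply, Pi.smul_apply, smul_eq_mul]
      linarith)
    constructor <;> linarith [this.1, this.2]
  set s1 := s 1 - s 0
  set s2 := s 2 - s 0
  set t1' := t 1 - t 0
  set t2' := t 2 - t 0
  set v1 := v 1 - v 0
  set v2 := v 2 - v 0
  have hdet : s1 * t2' - s2 * t1' ≠ 0 := by
    intro hd
    have r1 := rel t1' (-s1) 0 (by ring) (by linarith)
    have r2 := rel t2' (-s2) 0 (by linarith) (by ring)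
    have r3 := rel 1 0 0 (by
      have := r1.2
      linarith) (by
      have := r2.2
      linarith)
    exact one_ne_zero r3.1
  have r4 := rel (v1 * t2' - v2 * t1') (s1 * v2 - s2 * v1) (-(s1 * t2' - s2 * t1')) (by ring)
    (by ring)
  have hv1 : v1 = 0 := by
    have h1 : (s1 * t2' - s2 * t1') * v1 = 0 := by
      linear_combination s1 * r4.1 + t1' * r4.2
    rcases mul_eq_zero.mp h1 with h | h
    · exact absurd h hdet
    · exact h
  have hv2 : v2 = 0 := by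
    have h1 : (s1 * t2' - s2 * t1') * v2 = 0 := by
      linear_combination s2 * r4.1 + t2' * r4.2
    rcases mul_eq_zero.mp h1 with h | h
    · exact absurd h hdet
    · exact h
  obtain ⟨r, hr⟩ := hv.log (by linarith [hv1]) (by linarith [hv2])
  refine ⟨a, b, r, fun x => ?_⟩
  rw [← hr x]
  show c x = t1 x ^ a * t2 x ^ b * ((t1 x) ^ (-a) * (t2 x) ^ (-b) * (c x) ^ (1 : ℤ))
  rw [zpow_neg, zpow_neg, zpow_one, ← mul_inv, mul_inv_cancel_left]

end Pool.Agent.Helper427.Tri
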