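import Pool.Agent.Helper427.Tri.Wind

open Set Topology Metric
open scoped Real ComplexConjugate

set_option linter.unusedSectionVars false

namespace Pool.Agent.Helper427.Tri

theorem exp_arg_coe {z : ℂ} (h : z ≠ 0) : (Circle.exp (Complex.arg z) : ℂ) = z / ‖z‖ := by
  rw [Circle.coe_exp]
  have := Complex.norm_mul_exp_arg_mul_I z
  have hn : (‖z‖ : ℂ) ≠ 0 := by
    exact_mod_cast (norm_ne_zero_iff.mpr h)
  rw [eq_div_iff hn, mul_comm]
  exact this

/-- The phase of a nonvanishing function. -/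
noncomputable def phase {Y : Type*} [TopologicalSpace Y] (f : C(Y, ℂ)) (h : ∀ y, f y ≠ 0) :
    C(Y, Circle) :=
  ⟨fun y => Circle.exp (Complex.arg (f y)), by
    rw [(⟨rfl⟩ : IsInducing (fun z : Circle => (z : ℂ))).continuous_iff]
    have : ((fun z : Circle => (z : ℂ)) ∘ fun y => Circle.exp (Complex.arg (f y)))
        = fun y => f y / (‖f y‖ : ℂ) := by
      funext y
      exact exp_arg_coe (h y)
    rw [this]
    apply Continuous.div f.continuous (by fun_prop)
    intro y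
    exact_mod_cast (norm_ne_zero_iff.mpr (h y))⟩

theorem phase_coe {Y : Type*} [TopologicalSpace Y] (f : C(Y, ℂ)) (h : ∀ y, f y ≠ 0) (y : Y) :
    (phase f h y : ℂ) = f y / ‖f y‖ := exp_arg_coe (h y)

/-- The closed unit disc. -/
abbrev Disc : Type := closedBall (0 : ℂ) 1

theorem disc_log (c : C(Disc, Circle)) : HasLog c := by
  let F : C(unitInterval × Disc, Disc) := ⟨fun q => ⟨(q.1 : ℝ) • (q.2 : ℂ), by
    rw [mem_closedBall_zero_iff, norm_smul, Real.norm_eq_abs, abs_of_nonneg q.1.2.1]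
    have h1 := mem_closedBall_zero_iff.mp q.2.2
    have h2 := q.1.2.2
    have h3 := q.1.2.1
    have h4 := norm_nonneg (q.2 : ℂ)
    nlinarith⟩, by fun_prop⟩
  have : CompactSpace Disc := isCompact_iff_compactSpace.mp (isCompact_closedBall 0 1)
  refine HasLog.homotopy (c.comp F) (ContinuousMap.const _ (c ⟨0, by simp⟩)) c ?_ ?_
    (HasLog.const _)
  · intro y
    show c (F (0, y)) = c ⟨0, _⟩
    congr 1
    apply Subtype.ext
    simp [F]
  · intro y
    show c (F (1, y)) = c y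
    congr 1
    apply Subtype.ext
    simp [F]

/-- point of the sphere above a point of the disc, `e = 1` north, `e = -1` south -/
noncomputable def hemi (e : ℝ) (he : e ^ 2 = 1) : C(Disc, S2) :=
  ⟨fun w => ⟨!₂[(w : ℂ).re, (w : ℂ).im, e * Real.sqrt (1 - ‖(w : ℂ)‖ ^ 2)], by
    rw [mem_sphere_zero_iff_norm, EuclideanSpace.norm_eq]
    rw [Real.sqrt_eq_one]
    have h1 := mem_closedBall_zero_iff.mp w.2
    have h2 : 0 ≤ 1 - ‖(w : ℂ)‖ ^ 2 := by
      have := norm_nonneg (w : ℂ)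
      nlinarith
    have h3 := Real.sq_sqrt h2
    have h4 := norm_sq_re_im (w : ℂ)
    simp only [Fin.sum_univ_three, Real.norm_eq_abs, sq_abs]
    show (w : ℂ).re ^ 2 + (w : ℂ).im ^ 2 + (e * Real.sqrt (1 - ‖(w : ℂ)‖ ^ 2)) ^ 2 = 1
    rw [mul_pow, he, h3, h4]
    ring⟩, by
    apply Continuous.subtype_mk
    fun_prop⟩

theorem hemi_w (e : ℝ) (he : e ^ 2 = 1) (w : Disc) : wS (hemi e he w) = w := by
  apply Complex.ext <;> rfl

theorem hemi_h (e : ℝ) (he : e ^ 2 = 1) (w : Disc) :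
    hS (hemi e he w) = e * Real.sqrt (1 - ‖(w : ℂ)‖ ^ 2) := rfl

theorem no_section (a b : C(S2, ℂ)) (h : ∀ s, ‖a s‖ ^ 2 + ‖b s‖ ^ 2 = 1 ∧ Line s (a s) (b s)) :
    False := by
  have hN : ∀ w : Disc, (a.comp (hemi 1 (by norm_num))) w ≠ 0 := by
    intro w h0
    change a (hemi 1 _ w) = 0 at h0
    obtain ⟨hn, -, h2⟩ := h (hemi 1 (by norm_num) w)
    rw [h0] at h2 hn
    rw [hemi_h] at h2
    have h3 : (1 + ((1 * Real.sqrt (1 - ‖(w : ℂ)‖ ^ 2) : ℝ) : ℂ)) ≠ 0 := by
      have : (0 : ℝ) < 1 + 1 * Real.sqrt (1 - ‖(w : ℂ)‖ ^ 2) := by positivity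
      exact_mod_cast this.ne'
    rw [mul_zero] at h2
    have h4 := (mul_eq_zero.mp h2.symm).resolve_left h3
    rw [h4] at hn
    simp at hn
  have hS' : ∀ w : Disc, (b.comp (hemi (-1) (by norm_num))) w ≠ 0 := by
    intro w h0
    change b (hemi (-1) _ w) = 0 at h0
    obtain ⟨hn, h2, -⟩ := h (hemi (-1) (by norm_num) w)
    rw [h0] at h2 hn
    rw [hemi_h] at h2
    have h3 : (1 - ((-1 * Real.sqrt (1 - ‖(w : ℂ)‖ ^ 2) : ℝ) : ℂ)) ≠ 0 := by
      have : (0 : ℝ) < 1 - (-1 * Real.sqrt (1 - ‖(w : ℂ)‖ ^ 2)) := by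
        have := Real.sqrt_nonneg (1 - ‖(w : ℂ)‖ ^ 2)
        linarith
      exact_mod_cast this.ne'
    rw [mul_zero] at h2
    have h4 := (mul_eq_zero.mp h2).resolve_left h3
    rw [h4] at hn
    simp at hn
  obtain ⟨rN, hrN⟩ := disc_log (phase _ hN)
  obtain ⟨rS, hrS⟩ := disc_log (phase _ hS')
  -- on the boundary circle
  let bd : ℝ → Disc := fun t => ⟨(Circle.exp t : ℂ), by
    rw [mem_closedBall_zero_iff, Circle.norm_coe]⟩
  have hbd : Continuous bd := by
    apply Continuous.subtype_mk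
    exact continuous_subtype_val.comp Circle.exp.continuous
  have key : ∀ t : ℝ, Circle.exp (rS (bd t)) = Circle.exp (rN (bd t) + t) := by
    intro t
    rw [Circle.exp_add, ← hrN, ← hrS]
    apply Circle.ext
    rw [Circle.coe_mul, phase_coe, phase_coe]
    have hn1 : ‖((bd t : Disc) : ℂ)‖ = 1 := Circle.norm_coe _
    have hp : hemi 1 (by norm_num) (bd t) = hemi (-1) (by norm_num) (bd t) := by
      apply Subtype.ext
      ext i
      fin_cases i
      · rfl
      · rfl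
      · show 1 * Real.sqrt (1 - ‖((bd t : Disc) : ℂ)‖ ^ 2)
          = -1 * Real.sqrt (1 - ‖((bd t : Disc) : ℂ)‖ ^ 2)
        rw [hn1]
        simp
    show b (hemi (-1) _ (bd t)) / ‖b (hemi (-1) _ (bd t))‖
      = a (hemi 1 _ (bd t)) / ‖a (hemi 1 _ (bd t))‖ * (Circle.exp t : ℂ)
    rw [← hp]
    obtain ⟨-, -, h2⟩ := h (hemi 1 (by norm_num) (bd t))
    rw [hemi_w, hemi_h, hn1] at h2
    have h3 : ((bd t : Disc) : ℂ) = (Circle.exp t : ℂ) := rfl
    rw [h3] at h2
    have h4 : b (hemi 1 (by norm_num) (bd t)) = (Circle.exp t : ℂ) * a (hemi 1 (by norm_num) (bd t)) := by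
      rw [h2]
      simp
    rw [h4, norm_mul, Circle.norm_coe, one_mul]
    ring
  have hint : ∀ t : ℝ, ∃ n : ℤ, rS (bd t) - (rN (bd t) + t) = 2 * π * n := fun t =>
    exp_eq_iff (key t)
  have hc : Continuous fun t : ℝ => rS (bd t) - (rN (bd t) + t) := by fun_prop
  have h5 := const_of_int hc hint 0 (2 * π)
  have h6 : bd (2 * π) = bd 0 := by
    apply Subtype.ext
    show (Circle.exp (2 * π) : ℂ) = Circle.exp 0
    rw [Circle.exp_two_pi, Circle.exp_zero]
  rw [h6] at h5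
  have := Real.pi_pos
  linarith

end Pool.Agent.Helper427.Tri
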