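import Pool.Agent.Helper427.Tri.Mon
import Pool.Agent.Helper427.Tri.NoSection

open Set Topology Metric
open scoped Real ComplexConjugate

set_option linter.unusedSectionVars false

namespace Pool.Agent.Helper427.Tri

theorem handle_hasLift {Z : Type*} [NormedAddCommGroup Z] [NormedSpace ℝ Z] [ProperSpace Z] (k : ℕ)
    (f : C(handle Z k, S2)) : HasLift f := by
  obtain ⟨a, b, ha, hb, h⟩ := handle_lift k f
  rw [continuousOn_univ] at ha hb
  exact ⟨⟨a, ha⟩, ⟨b, hb⟩, fun y => h y trivial⟩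

variable {X : Type*} [TopologicalSpace X]

theorem piece_lift {Z : Type*} [NormedAddCommGroup Z] [NormedSpace ℝ Z] [ProperSpace Z] {k : ℕ}
    {Y : Set X} (e : Y ≃ₜ handle Z k) {s : X → S2} (hs : Continuous s) :
    ∃ a b, LiftOn s Y a b := by
  let f : C(handle Z k, S2) := ⟨fun p => s (e.symm p), by fun_prop⟩
  refine ((handle_hasLift k f).comp ⟨e, e.continuous⟩).liftOn (s := s) fun x => ?_
  show s (e.symm (e x)) = s x
  rw [e.symm_apply_apply]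

open unitInterval

/-- classification transported to a subset -/
theorem classify_on {H : Set X} (e : H ≃ₜ handle ℝ 2) {t1 t2 : X → Circle} (ht1 : Continuous t1)
    (ht2 : Continuous t2) {l1 l2 : C(I, X)} (m1 : ∀ t, l1 t ∈ H) (m2 : ∀ t, l2 t ∈ H)
    (hl1 : l1 0 = l1 1) (hl2 : l2 0 = l2 1)
    (h11 : Wind ⟨fun t => t1 (l1 t), by fun_prop⟩ 1) (h12 : Wind ⟨fun t => t1 (l2 t), by fun_prop⟩ 0)
    (h21 : Wind ⟨fun t => t2 (l1 t), by fun_prop⟩ 0) (h22 : Wind ⟨fun t => t2 (l2 t), by fun_prop⟩ 1)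
    {g : X → Circle} (hg : ContinuousOn g H) :
    ∃ (a b : ℤ) (r : X → ℝ), ContinuousOn r H ∧
      ∀ x ∈ H, g x = t1 x ^ a * t2 x ^ b * Circle.exp (r x) := by
  let T1 : C(handle ℝ 2, Circle) := ⟨fun p => t1 (e.symm p), by fun_prop⟩
  let T2 : C(handle ℝ 2, Circle) := ⟨fun p => t2 (e.symm p), by fun_prop⟩
  let L1 : C(I, handle ℝ 2) := ⟨fun t => e ⟨l1 t, m1 t⟩, by fun_prop⟩
  let L2 : C(I, handle ℝ 2) := ⟨fun t => e ⟨l2 t, m2 t⟩, by fun_prop⟩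
  let G : C(handle ℝ 2, Circle) := ⟨fun p => g (e.symm p), by
    exact (continuousOn_iff_continuous_domRestrict.mp hg).comp e.symm.continuous⟩
  have c11 : T1.comp L1 = ⟨fun t => t1 (l1 t), by fun_prop⟩ := by
    apply ContinuousMap.ext
    intro t
    show t1 (e.symm (e ⟨l1 t, m1 t⟩)) = t1 (l1 t)
    rw [e.symm_apply_apply]
  have c12 : T1.comp L2 = ⟨fun t => t1 (l2 t), by fun_prop⟩ := by
    apply ContinuousMap.ext
    intro t
    show t1 (e.symm (e ⟨l2 t, m2 t⟩)) = t1 (l2 t)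
    rw [e.symm_apply_apply]
  have c21 : T2.comp L1 = ⟨fun t => t2 (l1 t), by fun_prop⟩ := by
    apply ContinuousMap.ext
    intro t
    show t2 (e.symm (e ⟨l1 t, m1 t⟩)) = t2 (l1 t)
    rw [e.symm_apply_apply]
  have c22 : T2.comp L2 = ⟨fun t => t2 (l2 t), by fun_prop⟩ := by
    apply ContinuousMap.ext
    intro t
    show t2 (e.symm (e ⟨l2 t, m2 t⟩)) = t2 (l2 t)
    rw [e.symm_apply_apply]
  obtain ⟨a, b, r, hr⟩ := classify (t1 := T1) (t2 := T2) (l1 := L1) (l2 := L2)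
    (by
      show e ⟨l1 0, m1 0⟩ = e ⟨l1 1, m1 1⟩
      congr 1
      exact Subtype.ext hl1)
    (by
      show e ⟨l2 0, m2 0⟩ = e ⟨l2 1, m2 1⟩
      congr 1
      exact Subtype.ext hl2)
    (by rw [c11]; exact h11) (by rw [c12]; exact h12) (by rw [c21]; exact h21)
    (by rw [c22]; exact h22) G
  refine ⟨a, b, ext 0 fun x : H => r (e x), ext_contOn 0 (by fun_prop), ?_⟩
  intro x hx
  have e1 := ext_eq (0 : ℝ) (fun x : H => r (e x)) ⟨x, hx⟩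
  change ext (0 : ℝ) (fun x : H => r (e x)) x = _ at e1
  rw [e1]
  have := hr (e ⟨x, hx⟩)
  change g (e.symm (e ⟨x, hx⟩)) = t1 (e.symm (e ⟨x, hx⟩)) ^ a * t2 (e.symm (e ⟨x, hx⟩)) ^ b
    * Circle.exp (r (e ⟨x, hx⟩)) at this
  rwa [e.symm_apply_apply] at this

/-- winding of a monomial times an exponential -/
theorem wind_mono {S : Set X} {t1 t2 : X → Circle} (ht1 : Continuous t1)
    (ht2 : Continuous t2) {l : C(I, X)} (m : ∀ t, l t ∈ S) (hl : l 0 = l 1) {n1 n2 : ℤ}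
    (h1 : Wind ⟨fun t => t1 (l t), by fun_prop⟩ n1) (h2 : Wind ⟨fun t => t2 (l t), by fun_prop⟩ n2)
    {g : X → Circle} {a b : ℤ} {r : X → ℝ} (hr : ContinuousOn r S) (hg : ContinuousOn g S)
    (h : ∀ x ∈ S, g x = t1 x ^ a * t2 x ^ b * Circle.exp (r x)) :
    Wind ⟨fun t => g (l t), hg.comp_continuous l.continuous m⟩ (a * n1 + b * n2) := by
  have hrc : Continuous fun t => r (l t) := hr.comp_continuous l.continuous m
  have hec : Continuous fun t => Circle.exp (r (l t)) := Circle.exp.continuous.comp hrc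
  have w3 : Wind ⟨fun t => Circle.exp (r (l t)), hec⟩ 0 :=
    Wind.of_log (r := ⟨fun t => r (l t), hrc⟩) (fun _ => rfl) (by
      show r (l 0) = r (l 1)
      rw [hl])
  have w := ((h1.zpow a).mul (h2.zpow b)).mul w3
  rw [add_zero] at w
  have e : (⟨fun t => g (l t), hg.comp_continuous l.continuous m⟩ : C(I, Circle))
      = (⟨fun t => t1 (l t), by fun_prop⟩ : C(I, Circle)) ^ a *
        (⟨fun t => t2 (l t), by fun_prop⟩ : C(I, Circle)) ^ b *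
        (⟨fun t => Circle.exp (r (l t)), hec⟩ : C(I, Circle)) := by
    apply ContinuousMap.ext
    intro t
    exact h _ (m t)
  rw [e]
  exact w

theorem no_decomposition [NormalSpace X] {t1 t2 : X → Circle} (ht1 : Continuous t1)
    (ht2 : Continuous t2) {s : X → S2} (hs : Continuous s) {q : S2 → X} (hq : Continuous q)
    (hsq : ∀ x, s (q x) = x)
    {Y1 Y2 Y3 : Set X} (c1 : IsClosed Y1) (c2 : IsClosed Y2) (c3 : IsClosed Y3)
    (hcov : Y1 ∪ Y2 ∪ Y3 = univ) {k1 k2 k3 : ℕ} (e1 : Y1 ≃ₜ handle ℂ k1) (e2 : Y2 ≃ₜ handle ℂ k2)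
    (e3 : Y3 ≃ₜ handle ℂ k3) (e12 : (Y1 ∩ Y2 : Set X) ≃ₜ handle ℝ 2)
    (e13 : (Y1 ∩ Y3 : Set X) ≃ₜ handle ℝ 2) (e23 : (Y2 ∩ Y3 : Set X) ≃ₜ handle ℝ 2)
    (hpre : IsPreconnected (Y1 ∩ Y2 ∩ Y3))
    {l1 l2 : C(I, X)} (m1 : ∀ t, l1 t ∈ Y1 ∩ Y2 ∩ Y3) (m2 : ∀ t, l2 t ∈ Y1 ∩ Y2 ∩ Y3)
    (hl1 : l1 0 = l1 1) (hl2 : l2 0 = l2 1)
    (h11 : Wind ⟨fun t => t1 (l1 t), by fun_prop⟩ 1) (h12 : Wind ⟨fun t => t1 (l2 t), by fun_prop⟩ 0)
    (h21 : Wind ⟨fun t => t2 (l1 t), by fun_prop⟩ 0)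
    (h22 : Wind ⟨fun t => t2 (l2 t), by fun_prop⟩ 1) : False := by
  classical
  obtain ⟨a1, b1, L1⟩ := piece_lift e1 hs
  obtain ⟨a2, b2, L2⟩ := piece_lift e2 hs
  obtain ⟨a3, b3, L3⟩ := piece_lift e3 hs
  have htc : ∀ a b : ℤ, Continuous fun x => t1 x ^ a * t2 x ^ b := fun a b => by fun_prop
  -- first gluing
  obtain ⟨g, hg, hg'⟩ := (L1.mono inter_subset_left).ratio
    (L2.mono (inter_subset_right : Y1 ∩ Y2 ⊆ Y2))
  obtain ⟨α, β, r, hr, hr'⟩ := classify_on e12 ht1 ht2 (fun t => (m1 t).1) (fun t => (m2 t).1)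
    hl1 hl2 h11 h12 h21 h22 hg
  obtain ⟨a, b, L⟩ := glue c1 c2 L1 L2 _ (htc α β) r hr (fun x hx => by
    rw [← hr' x hx]
    exact hg' x hx)
  -- second gluing
  have hsub1 : Y1 ∩ Y3 ⊆ (Y1 ∪ Y2) ∩ Y3 := fun x hx => ⟨Or.inl hx.1, hx.2⟩
  have hsub2 : Y2 ∩ Y3 ⊆ (Y1 ∪ Y2) ∩ Y3 := fun x hx => ⟨Or.inr hx.1, hx.2⟩
  obtain ⟨g, hg, hg'⟩ := (L.mono inter_subset_left).ratio
    (L3.mono (inter_subset_right : (Y1 ∪ Y2) ∩ Y3 ⊆ Y3))
  obtain ⟨α1, β1, r1, hr1, hr1'⟩ := classify_on e13 ht1 ht2 (fun t => ⟨(m1 t).1.1, (m1 t).2⟩)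
    (fun t => ⟨(m2 t).1.1, (m2 t).2⟩) hl1 hl2 h11 h12 h21 h22 (hg.mono hsub1)
  obtain ⟨α2, β2, r2, hr2, hr2'⟩ := classify_on e23 ht1 ht2 (fun t => ⟨(m1 t).1.2, (m1 t).2⟩)
    (fun t => ⟨(m2 t).1.2, (m2 t).2⟩) hl1 hl2 h11 h12 h21 h22 (hg.mono hsub2)
  set S : Set X := Y1 ∩ Y2 ∩ Y3 with hS
  have s1 : S ⊆ Y1 ∩ Y3 := fun x hx => ⟨hx.1.1, hx.2⟩
  have s2 : S ⊆ Y2 ∩ Y3 := fun x hx => ⟨hx.1.2, hx.2⟩
  have hgS : ContinuousOn g S := (hg.mono hsub1).mono s1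
  have w11 := wind_mono ht1 ht2 m1 hl1 h11 h21 (hr1.mono s1) hgS (fun x hx => hr1' x (s1 hx))
  have w12 := wind_mono ht1 ht2 m1 hl1 h11 h21 (hr2.mono s2) hgS (fun x hx => hr2' x (s2 hx))
  have w21 := wind_mono ht1 ht2 m2 hl2 h12 h22 (hr1.mono s1) hgS (fun x hx => hr1' x (s1 hx))
  have w22 := wind_mono ht1 ht2 m2 hl2 h12 h22 (hr2.mono s2) hgS (fun x hx => hr2' x (s2 hx))
  have eα : α1 = α2 := by
    have := w11.unique w12
    linarith
  have eβ : β1 = β2 := by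
    have := w21.unique w22
    linarith
  subst eα
  subst eβ
  have hexp : ∀ x ∈ S, Circle.exp (r1 x) = Circle.exp (r2 x) := by
    intro x hx
    have h1 := hr1' x (s1 hx)
    have h2 := hr2' x (s2 hx)
    rw [h1] at h2
    exact mul_left_cancel h2
  have x0 : S := ⟨l1 0, m1 0⟩
  obtain ⟨m, hm⟩ := exp_eq_iff (hexp x0 x0.2)
  have hconst : ∀ x ∈ S, r1 x - r2 x = 2 * π * m := by
    intro x hx
    have : PreconnectedSpace S := isPreconnected_iff_preconnectedSpace.mp hpre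
    have hc : Continuous fun y : S => r1 y - r2 y :=
      (continuousOn_iff_continuous_domRestrict.mp (hr1.mono s1)).sub
        (continuousOn_iff_continuous_domRestrict.mp (hr2.mono s2))
    have := const_of_int hc (fun y => exp_eq_iff (hexp y y.2)) ⟨x, hx⟩ x0
    rw [← hm]
    exact this
  let R : X → ℝ := fun x => if x ∈ Y1 ∩ Y3 then r1 x else r2 x + 2 * π * m
  have hR1 : ∀ x ∈ Y1 ∩ Y3, R x = r1 x := fun x hx => if_pos hx
  have hR2 : ∀ x ∈ Y2 ∩ Y3, R x = r2 x + 2 * π * m := by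
    intro x hx
    by_cases h : x ∈ Y1 ∩ Y3
    · rw [hR1 x h]
      have := hconst x ⟨⟨h.1, hx.1⟩, hx.2⟩
      linarith
    · exact if_neg h
  have hsplit : (Y1 ∪ Y2) ∩ Y3 = (Y1 ∩ Y3) ∪ (Y2 ∩ Y3) := union_inter_distrib_right _ _ _
  have hRc : ContinuousOn R ((Y1 ∪ Y2) ∩ Y3) := by
    rw [hsplit]
    apply ContinuousOn.union_of_isClosed _ _ (c1.inter c3) (c2.inter c3)
    · exact hr1.congr hR1
    · exact (hr2.add continuousOn_const).congr hR2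
  obtain ⟨a', b', L'⟩ := glue (c1.union c2) c3 L L3 _ (htc α1 β1) R hRc (fun x hx => by
    have : g x = t1 x ^ α1 * t2 x ^ β1 * Circle.exp (R x) := by
      rw [hsplit] at hx
      rcases hx with h | h
      · rw [hR1 x h]
        exact hr1' x h
      · rw [hR2 x h, Circle.exp_add, exp_two_pi_int, mul_one]
        exact hr2' x h
    rw [← this]
    exact hg' x hx)
  rw [hcov] at L'
  obtain ⟨ca, cb, hab⟩ := L'
  rw [continuousOn_univ] at ca cb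
  refine no_section ⟨fun x => a' (q x), ca.comp hq⟩ ⟨fun x => b' (q x), cb.comp hq⟩ fun x => ?_
  have := hab (q x) trivial
  rw [hsq] at this
  exact this

end Pool.Agent.Helper427.Tri
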