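import Mathlib

open Finset Metric Module
open scoped unitInterval

namespace Pool.Agent.Helper427.Tri

section sphere


variable {E : Type*} [NormedAddCommGroup E] [InnerProductSpace ℝ E] [FiniteDimensional ℝ E]

/-- normalisation to the unit sphere of a nonvanishing continuous map -/
noncomputable def nrm {Y : Type*} [TopologicalSpace Y] (f : C(Y, E)) (hf : ∀ y, f y ≠ 0) : C(Y, sphere (0 : E) 1) where
  toFun y := ⟨‖f y‖⁻¹ • f y, by
    rw [mem_sphere_zero_iff_norm, norm_smul, norm_inv, norm_norm, inv_mul_cancel₀]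
    exact norm_ne_zero_iff.mpr (hf y)⟩
  continuous_toFun := by
    refine Continuous.subtype_mk ?_ _
    refine Continuous.smul (Continuous.inv₀ (by fun_prop) fun y => norm_ne_zero_iff.mpr (hf y)) (by fun_prop)

omit [FiniteDimensional ℝ E] in
lemma compl_contractible {w : E} (hw : ‖w‖ = 1) :
    ContractibleSpace (({⟨w, by simp [hw]⟩}ᶜ : Set (sphere (0 : E) 1)) : Type _) := by
  have h1 := (stereographic hw).toHomeomorphSourceTarget
  rw [stereographic_source, stereographic_target] at h1
  have h2 : ContractibleSpace (Set.univ : Set (ℝ ∙ w)ᗮ) :=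
    (Homeomorph.Set.univ _).contractibleSpace
  exact h1.contractibleSpace

lemma exists_missed (hE : 2 < finrank ℝ E) (f : C(I, E)) (n : ℕ) :
    ∃ v : E, v ≠ 0 ∧ ∀ (s : ℝ) (t : I), s • bernsteinApproximation n f t ≠ v := by
  let G : ℝ × ℝ → E := fun st => st.1 • ∑ k : Fin (n + 1),
    (Polynomial.aeval st.2 (bernsteinPolynomial ℝ n k)) • f (bernstein.z k)
  have hG : ContDiff ℝ 1 G := by
    refine ContDiff.smul contDiff_fst ?_
    refine ContDiff.sum fun k _ => ?_
    refine ContDiff.smul ?_ contDiff_const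
    exact (Polynomial.contDiff_aeval _ _).comp contDiff_snd
  have hd : Dense (Set.range G)ᶜ := hG.dense_compl_range_of_finrank_lt_finrank (by simpa using hE)
  obtain ⟨v, hv⟩ := hd.nonempty
  refine ⟨v, ?_, ?_⟩
  · rintro rfl
    exact hv ⟨(0, 0), by simp [G]⟩
  · intro s t h
    apply hv
    refine ⟨(s, (t : ℝ)), ?_⟩
    rw [← h, bernsteinApproximation.apply]
    simp [G, bernstein]


theorem simplyConnected_sphere (hE : 2 < finrank ℝ E) : SimplyConnectedSpace (sphere (0 : E) 1) := by
  rw [simply_connected_iff_loops_nullhomotopic]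
  have hrank : 1 < Module.rank ℝ E := by
    rw [← Module.finrank_eq_rank]
    exact_mod_cast (by omega : 1 < finrank ℝ E)
  refine ⟨isPathConnected_iff_pathConnectedSpace.mp (isPathConnected_sphere hrank 0 zero_le_one), ?_⟩
  intro x γ
  -- Bernstein approximation
  let f : C(I, E) := ⟨fun t => (γ t : E), by fun_prop⟩
  have hlim := bernsteinApproximation_uniform f
  rw [Metric.tendsto_nhds] at hlim
  obtain ⟨n, hn1, hn0⟩ := ((hlim 1 one_pos).and (Filter.eventually_ge_atTop 1)).exists
  have hn : n ≠ 0 := by omega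
  set g : C(I, E) := bernsteinApproximation n f with hg
  have hfn : ∀ t, ‖f t‖ = 1 := fun t => mem_sphere_zero_iff_norm.mp (γ t).2
  have hclose : ∀ t, ‖g t - f t‖ < 1 := fun t => by
    rw [← dist_eq_norm]
    exact lt_of_le_of_lt (ContinuousMap.dist_apply_le_dist t) hn1
  -- the homotopy in the ambient space
  let H : C(I × I, E) := ⟨fun st => f st.2 + (st.1 : ℝ) • (g st.2 - f st.2), by fun_prop⟩
  have hH : ∀ st, H st ≠ 0 := by
    rintro ⟨s, t⟩ h0
    have h1 : f t = -((s : ℝ) • (g t - f t)) := eq_neg_of_add_eq_zero_left h0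
    have h2 : ‖f t‖ = |(s : ℝ)| * ‖g t - f t‖ := by rw [h1, norm_neg, norm_smul, Real.norm_eq_abs, ← h1]
    rw [hfn] at h2
    have h3 : |(s : ℝ)| ≤ 1 := by rw [abs_of_nonneg s.2.1]; exact s.2.2
    have h4 := hclose t
    nlinarith [norm_nonneg (g t - f t), abs_nonneg (s : ℝ)]
  have hgne : ∀ t, g t ≠ 0 := by
    intro t h0
    have := hH (1, t)
    apply this
    simp [H, h0]
  have hf0 : f 0 = x := by simp [f]
  have hf1 : f 1 = x := by simp [f]
  have hg0 : g 0 = x := by rw [hg, bernsteinApproximation.apply_zero, hf0]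
  have hg1 : g 1 = x := by rw [hg, bernsteinApproximation.apply_one hn, hf1]
  have hx : ‖(x : E)‖ = 1 := mem_sphere_zero_iff_norm.mp x.2
  let γ' : Path x x :=
    { toContinuousMap := nrm g hgne
      source' := by
        apply Subtype.ext
        simp [nrm, hg0, hx]
      target' := by
        apply Subtype.ext
        simp [nrm, hg1, hx] }
  have hhom : Path.Homotopic γ γ' := by
    refine ⟨{ toContinuousMap := nrm H hH, map_zero_left := ?_, map_one_left := ?_, prop' := ?_ }⟩
    · intro t
      apply Subtype.ext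
      have : ‖(γ t : E)‖ = 1 := hfn t
      simp [nrm, H, f, this]
    · intro t
      apply Subtype.ext
      have h1 : H (1, t) = g t := by simp [H]
      change ‖H (1, t)‖⁻¹ • H (1, t) = ‖g t‖⁻¹ • g t
      rw [h1]
    · intro s t ht
      rcases ht with rfl | rfl
      · apply Subtype.ext
        simp [nrm, H, hf0, hg0, hx]
      · apply Subtype.ext
        simp [nrm, H, hf1, hg1, hx]
  refine hhom.trans ?_
  -- the new loop misses a point
  obtain ⟨v, hv0, hv⟩ := exists_missed hE f n
  have hvn : ‖v‖ ≠ 0 := norm_ne_zero_iff.mpr hv0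
  have hw : ‖(‖v‖⁻¹ • v)‖ = 1 := by
    rw [norm_smul, norm_inv, norm_norm, inv_mul_cancel₀ hvn]
  let U : Set (sphere (0 : E) 1) := {⟨‖v‖⁻¹ • v, by simp [hw]⟩}ᶜ
  have hU : ContractibleSpace U := compl_contractible hw
  have hmem : ∀ t, γ' t ∈ U := by
    intro t ht
    have h1 : (γ' t : E) = ‖v‖⁻¹ • v := congrArg Subtype.val ht
    have h2 : ‖g t‖⁻¹ • g t = ‖v‖⁻¹ • v := h1
    apply hv (‖v‖ * ‖g t‖⁻¹) t
    rw [mul_smul, ← hg, h2, smul_smul, mul_inv_cancel₀ hvn, one_smul]
  have hxU : x ∈ U := by simpa using hmem 0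
  let δ : Path (⟨x, hxU⟩ : U) ⟨x, hxU⟩ :=
    { toFun := fun t => ⟨γ' t, hmem t⟩
      continuous_toFun := by fun_prop
      source' := by simp
      target' := by simp }
  have hδ : Path.Homotopic δ (Path.refl _) := SimplyConnectedSpace.paths_homotopic _ _
  have h3 := hδ.map ⟨Subtype.val, continuous_subtype_val⟩
  exact h3


end sphere

end Pool.Agent.Helper427.Tri
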