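import Pool.Agent.Helper427.Tri.Gens
import Pool.Agent.Helper427.Tri.SphereSC

open Set Topology Metric Module
open scoped Real ComplexConjugate Manifold ContDiff unitInterval

set_option linter.unusedSectionVars false

namespace Pool.Agent.Helper427.Tri

instance S2_sc : SimplyConnectedSpace S2 := simplyConnected_sphere (by simp)

theorem surj_base (γ : Path (incl Sig x0) (incl Sig x0)) :
    ∃ δ : Path x0 x0, (δ.map (incl Sig).continuous).Homotopic γ := by
  have e1 : Circle.exp 0 = (incl Sig x0).1 := (pB1 0).end_eq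
  have e2 : Circle.exp π = (incl Sig x0).2.1 := (pA2 0).end_eq
  obtain ⟨b1, h1⟩ := Lg.exists (γ.map fst_cont) e1
  obtain ⟨b2, h2⟩ := Lg.exists (γ.map snd_cont) e2
  obtain ⟨n, hn⟩ := exp_eq_iff (h1.end_eq.trans e1.symm)
  obtain ⟨m, hm⟩ := exp_eq_iff (h2.end_eq.trans e2.symm)
  have hb1 : b1 = 2 * π * n := by linarith
  have hb2 : b2 = π + 2 * π * m := by linarith
  subst hb1 hb2
  refine ⟨(pA n).trans (pB m), ?_⟩
  rw [Path.map_trans]
  have k1 : Lg ((((pA n).map (incl Sig).continuous).trans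
      ((pB m).map (incl Sig).continuous)).map fst_cont) 0 (2 * π * n) := by
    rw [Path.map_trans]
    have a := (pB1 m).shift n
    simp only [zero_add] at a
    exact (pA1 n).trans a
  have k2 : Lg ((((pA n).map (incl Sig).continuous).trans
      ((pB m).map (incl Sig).continuous)).map snd_cont) π (π + 2 * π * m) := by
    rw [Path.map_trans]
    exact (pA2 n).trans (pB2 m)
  refine homotopic_prod (k1.homotopic h1) (homotopic_prod (k2.homotopic h2) ?_)
  exact SimplyConnectedSpace.paths_homotopic _ _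

open CategoryTheory in
theorem surj_conj {C D : Type*} [Groupoid C] [Groupoid D] (F : C ⥤ D) {a b : C} (e : a ⟶ b)
    (h : Function.Surjective fun f : a ⟶ a => F.map f) :
    Function.Surjective fun f : b ⟶ b => F.map f := by
  intro g
  obtain ⟨f, hf⟩ := h (F.map e ≫ g ≫ inv (F.map e))
  refine ⟨inv e ≫ f ≫ e, ?_⟩
  simp only at hf
  simp [hf]

theorem Sig_path : IsPathConnected Sig :=
  surf_path.image' (emb_contOn.mono ((surf_sub 2).trans handle_sub_Udom))

theorem surj_all (x : Sig) : Function.Surjective (FundamentalGroup.map (incl Sig) x) := by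
  have hpc : PathConnectedSpace Sig := isPathConnected_iff_pathConnectedSpace.mp Sig_path
  obtain ⟨p⟩ := hpc.joined x0 x
  refine surj_conj (FundamentalGroupoid.map (incl Sig)) (a := FundamentalGroupoid.mk x0)
    (b := FundamentalGroupoid.mk x) (FundamentalGroupoid.fromPath (Path.Homotopic.Quotient.mk p)) ?_
  intro g
  obtain ⟨γ, rfl⟩ := Path.Homotopic.Quotient.mk_surjective (X := X4) g
  obtain ⟨δ, hδ⟩ := surj_base γ
  refine ⟨FundamentalGroupoid.fromPath (Path.Homotopic.Quotient.mk δ), ?_⟩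
  exact Path.Homotopic.Quotient.eq.mpr hδ

theorem no_tri (k : Fin 3 → ℕ) (Y : Fin 3 → Set X4) (h : IsTrisection 2 k Y) : ⋂ i, Y i ≠ Sig := by
  intro hS
  have hcl : ∀ i, IsClosed (Y i) := by
    intro i
    obtain ⟨e⟩ := h.sector i
    have : CompactSpace (Y i) := e.symm.compactSpace
    exact (isCompact_iff_compactSpace.mpr this).isClosed
  have hcov : Y 0 ∪ Y 1 ∪ Y 2 = univ := by
    rw [← h.cover]
    ext x
    simp [Fin.exists_fin_succ, or_assoc]
  have hint : Y 0 ∩ Y 1 ∩ Y 2 = Sig := by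
    rw [← hS]
    ext x
    simp [Fin.forall_fin_succ, and_assoc]
  obtain ⟨e1⟩ := h.sector 0
  obtain ⟨e2⟩ := h.sector 1
  obtain ⟨e3⟩ := h.sector 2
  obtain ⟨e12⟩ := h.pair 0 1 (by decide)
  obtain ⟨e13⟩ := h.pair 0 2 (by decide)
  obtain ⟨e23⟩ := h.pair 1 2 (by decide)
  let l1 : C(I, X4) := ((pA 1).map (incl Sig).continuous).toContinuousMap
  let l2 : C(I, X4) := ((pB 1).map (incl Sig).continuous).toContinuousMap
  have hl1 : l1 0 = l1 1 := ((pA 1).map (incl Sig).continuous).source.trans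
    ((pA 1).map (incl Sig).continuous).target.symm
  have hl2 : l2 0 = l2 1 := ((pB 1).map (incl Sig).continuous).source.trans
    ((pB 1).map (incl Sig).continuous).target.symm
  have m1 : ∀ t, l1 t ∈ Y 0 ∩ Y 1 ∩ Y 2 := by
    intro t
    rw [hint]
    exact (pA 1 t).2
  have m2 : ∀ t, l2 t ∈ Y 0 ∩ Y 1 ∩ Y 2 := by
    intro t
    rw [hint]
    exact (pB 1 t).2
  have w11 := Lg.wind (a := 0) (n := 1) (by simpa using pA1 1)
  have w12 := Lg.wind (n := 0) (by simpa using pB1 1)
  have w21 := Lg.wind (n := 0) (by simpa using pA2 1)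
  have w22 := Lg.wind (n := 1) (pB2 1)
  refine no_decomposition (t1 := fun x : X4 => x.1) (t2 := fun x : X4 => x.2.1) fst_cont snd_cont
    (s := fun x : X4 => x.2.2) thd_cont (q := fun s => (1, 1, s)) (by fun_prop) (fun x => rfl)
    (hcl 0) (hcl 1) (hcl 2) hcov e1 e2 e3 e12 e13 e23 ?_ m1 m2 hl1 hl2 w11 w12 w21 w22
  rw [hint]
  exact Sig_path.isConnected.isPreconnected

end Pool.Agent.Helper427.Tri
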