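import Pool.Agent.Helper427.Tri.Embed

open Set Topology Metric Module
open scoped Real ComplexConjugate Manifold ContDiff

set_option linter.unusedSectionVars false

namespace Pool.Agent.Helper427.Tri

theorem surf_sub (g : ℕ) : surf g ⊆ handle ℝ g := fun _ hp => le_of_eq hp

theorem planar_two (x y : ℝ) : planar 2 x y = ((x - 6) ^ 2 + y ^ 2 - 25) *
    (((x - 4) ^ 2 + y ^ 2 - 1) * ((x - 8) ^ 2 + y ^ 2 - 1)) := by
  unfold planar
  rw [Finset.prod_range_succ, Finset.prod_range_succ, Finset.prod_range_zero]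
  push_cast
  ring

theorem InD_two {x y : ℝ} : InD 2 x y ↔ (x - 6) ^ 2 + y ^ 2 ≤ 25 ∧ 1 ≤ (x - 4) ^ 2 + y ^ 2 ∧
    1 ≤ (x - 8) ^ 2 + y ^ 2 := by
  unfold InD
  constructor
  · rintro ⟨h1, h2⟩
    have a := h2 0 (by norm_num)
    have b := h2 1 (by norm_num)
    push_cast at a b h1
    norm_num at a b h1
    exact ⟨h1, a, b⟩
  · rintro ⟨h1, h2, h3⟩
    refine ⟨?_, ?_⟩
    · push_cast
      norm_num
      exact h1
    · intro j hj
      interval_cases j
      · norm_num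
        exact h2
      · norm_num
        exact h3

theorem mem_handle_InD {Z : Type*} [NormedAddCommGroup Z] {k : ℕ} {p : ℝ × ℝ × Z}
    (hp : p ∈ handle Z k) : InD k p.1 p.2.1 := by
  rw [← planar_nonpos_iff]
  have h : planar k p.1 p.2.1 + ‖p.2.2‖ ^ 2 ≤ 0 := hp
  have := sq_nonneg ‖p.2.2‖
  linarith

theorem handle_sub_Udom : handle ℝ 2 ⊆ Udom := by
  intro p hp
  obtain ⟨-, h2, h3⟩ := InD_two.mp (mem_handle_InD hp)
  constructor
  · intro h
    have := cc_norm_sq 4 p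
    rw [h, norm_zero] at this
    linarith
  · intro h
    have := cc_norm_sq 8 p
    rw [h, norm_zero] at this
    linarith

/-- The standard surface is a regular level set. -/
theorem surf_regular {p : ℝ × ℝ × ℝ} (hp : p ∈ surf 2) :
    fderiv ℝ (fun q : ℝ × ℝ × ℝ => planar 2 q.1 q.2.1 + ‖q.2.2‖ ^ 2) p ≠ 0 := by
  obtain ⟨x, y, z⟩ := p
  have hp' : planar 2 x y + ‖z‖ ^ 2 = 0 := hp
  rw [planar_two, Real.norm_eq_abs, sq_abs] at hp'
  have eF : (fun q : ℝ × ℝ × ℝ => planar 2 q.1 q.2.1 + ‖q.2.2‖ ^ 2)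
      = fun q : ℝ × ℝ × ℝ => ((q.1 - 6) ^ 2 + q.2.1 ^ 2 - 25) *
    (((q.1 - 4) ^ 2 + q.2.1 ^ 2 - 1) * ((q.1 - 8) ^ 2 + q.2.1 ^ 2 - 1)) + q.2.2 ^ 2 := by
    funext q
    rw [planar_two, Real.norm_eq_abs, sq_abs]
  rw [eF]
  intro h0
  set F : ℝ × ℝ × ℝ → ℝ := fun q : ℝ × ℝ × ℝ => ((q.1 - 6) ^ 2 + q.2.1 ^ 2 - 25) *
    (((q.1 - 4) ^ 2 + q.2.1 ^ 2 - 1) * ((q.1 - 8) ^ 2 + q.2.1 ^ 2 - 1)) + q.2.2 ^ 2 with hF
  have hd : DifferentiableAt ℝ F (x, y, z) := by
    rw [hF]
    fun_prop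
  have hd' : HasFDerivAt F (0 : ℝ × ℝ × ℝ →L[ℝ] ℝ) (x, y, z) := by
    rw [← h0]
    exact hd.hasFDerivAt
  have key : ∀ (v : ℝ × ℝ × ℝ) (D : ℝ), HasDerivAt (fun t : ℝ => F (x + t * v.1, y + t * v.2.1,
      z + t * v.2.2)) D 0 → D = 0 := by
    intro v D hD
    have h1 : HasDerivAt (fun t : ℝ => (x + t * v.1, y + t * v.2.1, z + t * v.2.2)) v 0 := by
      have a : ∀ (c w : ℝ), HasDerivAt (fun t : ℝ => c + t * w) w 0 := by
        intro c w
        simpa using ((hasDerivAt_id (0 : ℝ)).mul_const w).const_add c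
      exact (a x v.1).prodMk ((a y v.2.1).prodMk (a z v.2.2))
    have h2 : HasFDerivAt F (0 : ℝ × ℝ × ℝ →L[ℝ] ℝ) ((fun t : ℝ => (x + t * v.1, y + t * v.2.1,
        z + t * v.2.2)) 0) := by
      simpa using hd'
    have h3 := h2.comp_hasDerivAt (0 : ℝ) h1
    exact hD.unique h3
  have sq : ∀ (c w d : ℝ), HasDerivAt (fun t : ℝ => (c + t * w - d) ^ 2) (2 * (c - d) * w) 0 := by
    intro c w d
    have h1 : HasDerivAt (fun t : ℝ => c + t * w - d) w 0 := by
      simpa using (((hasDerivAt_id (0 : ℝ)).mul_const w).const_add c).sub_const d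
    have h2 := h1.pow 2
    exact h2.congr_deriv (by simp)
  have sq0 : ∀ (c w : ℝ), HasDerivAt (fun t : ℝ => (c + t * w) ^ 2) (2 * c * w) 0 := by
    intro c w
    have := sq c w 0
    simpa using this
  have full : ∀ v : ℝ × ℝ × ℝ, HasDerivAt (fun t : ℝ => F (x + t * v.1, y + t * v.2.1,
      z + t * v.2.2)) ((2 * (x - 6) * v.1 + 2 * y * v.2.1) *
        (((x - 4) ^ 2 + y ^ 2 - 1) * ((x - 8) ^ 2 + y ^ 2 - 1)) + ((x - 6) ^ 2 + y ^ 2 - 25) *
        ((2 * (x - 4) * v.1 + 2 * y * v.2.1) * ((x - 8) ^ 2 + y ^ 2 - 1) +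
          ((x - 4) ^ 2 + y ^ 2 - 1) * (2 * (x - 8) * v.1 + 2 * y * v.2.1)) + 2 * z * v.2.2) 0 := by
    intro v
    have f6 := ((sq x v.1 6).add (sq0 y v.2.1)).sub_const 25
    have f4 := ((sq x v.1 4).add (sq0 y v.2.1)).sub_const 1
    have f8 := ((sq x v.1 8).add (sq0 y v.2.1)).sub_const 1
    have := (f6.mul (f4.mul f8)).add (sq0 z v.2.2)
    exact this.congr_deriv (by simp [Pi.add_apply, Pi.mul_apply])
  have kz := key (0, 0, 1) _ (full (0, 0, 1))
  have kx := key (1, 0, 0) _ (full (1, 0, 0))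
  have ky := key (0, 1, 0) _ (full (0, 1, 0))
  simp only [mul_zero, mul_one, zero_mul, add_zero, zero_add] at kz kx ky
  have hz : z = 0 := by linarith
  rw [hz] at hp'
  set a := (x - 6) ^ 2 + y ^ 2 - 25 with ha
  set b := (x - 4) ^ 2 + y ^ 2 - 1 with hb
  set c := (x - 8) ^ 2 + y ^ 2 - 1 with hc
  have h3 : a * (b * c) = 0 := by linarith
  rcases mul_eq_zero.mp h3 with h | h
  · rw [h] at kx ky
    have hbc : b * c ≠ 0 := by
      intro h4
      rcases mul_eq_zero.mp h4 with h5 | h5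
      · nlinarith
      · nlinarith
    have e1 : (x - 6) * (b * c) = 0 := by linarith
    have e2 : y * (b * c) = 0 := by linarith
    have e3 := (mul_eq_zero.mp e1).resolve_right hbc
    have e4 := (mul_eq_zero.mp e2).resolve_right hbc
    rw [ha, e3, e4] at h
    norm_num at h
  · rcases mul_eq_zero.mp h with h | h
    · rw [h] at kx ky
      have hbc : a * c ≠ 0 := by
        intro h4
        rcases mul_eq_zero.mp h4 with h5 | h5
        · nlinarith
        · nlinarith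
      have e1 : (x - 4) * (a * c) = 0 := by linarith
      have e2 : y * (a * c) = 0 := by linarith
      have e3 := (mul_eq_zero.mp e1).resolve_right hbc
      have e4 := (mul_eq_zero.mp e2).resolve_right hbc
      rw [hb, e3, e4] at h
      norm_num at h
    · rw [h] at kx ky
      have hbc : a * b ≠ 0 := by
        intro h4
        rcases mul_eq_zero.mp h4 with h5 | h5
        · nlinarith
        · nlinarith
      have e1 : (x - 8) * (a * b) = 0 := by linarith
      have e2 : y * (a * b) = 0 := by linarith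
      have e3 := (mul_eq_zero.mp e1).resolve_right hbc
      have e4 := (mul_eq_zero.mp e2).resolve_right hbc
      rw [hc, e3, e4] at h
      norm_num at h

/-- sheets of the surface -/
noncomputable def sheet (e : ℝ) (q : ℝ × ℝ) : ℝ × ℝ × ℝ :=
  (q.1, q.2, e * Real.sqrt (-planar 2 q.1 q.2))

theorem sheet_cont (e : ℝ) : Continuous (sheet e) := by
  have := planar_cont 2
  unfold sheet
  fun_prop

theorem sheet_mem {e : ℝ} (he : e ^ 2 = 1) {q : ℝ × ℝ} (hq : InD 2 q.1 q.2) : sheet e q ∈ surf 2 := by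
  show planar 2 q.1 q.2 + ‖e * Real.sqrt (-planar 2 q.1 q.2)‖ ^ 2 = 0
  have h := planar_nonpos_iff.mpr hq
  rw [Real.norm_eq_abs, sq_abs, mul_pow, he, Real.sq_sqrt (by linarith)]
  ring

theorem surf_eq : surf 2 = sheet 1 '' {q | InD 2 q.1 q.2} ∪ sheet (-1) '' {q | InD 2 q.1 q.2} := by
  apply Subset.antisymm
  · rintro ⟨x, y, z⟩ hp
    have hD := mem_handle_InD (surf_sub 2 hp)
    have h : planar 2 x y + ‖z‖ ^ 2 = 0 := hp
    have hz : Real.sqrt (-planar 2 x y) = |z| := by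
      have : -planar 2 x y = |z| ^ 2 := by rw [Real.norm_eq_abs] at h; linarith
      rw [this, Real.sqrt_sq (abs_nonneg z)]
    rcases le_total 0 z with h0 | h0
    · left
      refine ⟨(x, y), hD, ?_⟩
      show (x, y, 1 * Real.sqrt (-planar 2 x y)) = (x, y, z)
      rw [hz, abs_of_nonneg h0, one_mul]
    · right
      refine ⟨(x, y), hD, ?_⟩
      show (x, y, -1 * Real.sqrt (-planar 2 x y)) = (x, y, z)
      rw [hz, abs_of_nonpos h0]
      simp
  · apply union_subset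
    · rintro _ ⟨q, hq, rfl⟩
      exact sheet_mem (by norm_num) hq
    · rintro _ ⟨q, hq, rfl⟩
      exact sheet_mem (by norm_num) hq

theorem top_one : top 2 1 = 0 := by
  unfold top
  rw [Real.sqrt_eq_zero']
  norm_num

theorem joined_up {x y : ℝ} (h : InD 2 x y) (hy : 0 ≤ y) :
    JoinedIn {q : ℝ × ℝ | InD 2 q.1 q.2} (x, y) (1, 0) := by
  have ht := h.le_top
  have hs : (x - 6) ^ 2 ≤ 25 := by
    have := (InD_two.mp h).1
    nlinarith [sq_nonneg y]
  have hx1 : 1 ≤ x := by nlinarith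
  have hx2 : x ≤ 11 := by nlinarith
  have j1 : JoinedIn {q : ℝ × ℝ | InD 2 q.1 q.2} (x, y) (x, top 2 x) := by
    refine JoinedIn.ofLine (f := fun t => (x, y + t * (top 2 x - y))) (by fun_prop) (by simp)
      (by simp) ?_
    rintro _ ⟨t, ht', rfl⟩
    have h0 : 0 ≤ t * (top 2 x - y) := mul_nonneg ht'.1 (by linarith)
    have h1 : t * (top 2 x - y) ≤ top 2 x - y :=
      mul_le_of_le_one_left (by linarith) ht'.2
    exact h.up hy (by linarith) (by linarith)
  have j2 : JoinedIn {q : ℝ × ℝ | InD 2 q.1 q.2} (x, top 2 x) (1, 0) := by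
    have hc := top_cont 2
    refine JoinedIn.ofLine (f := fun t => (x + t * (1 - x), top 2 (x + t * (1 - x))))
      (by fun_prop) (by simp) (by simp [top_one]) ?_
    rintro _ ⟨t, ht', rfl⟩
    have h0 : t * (1 - x) ≤ 0 := mul_nonpos_of_nonneg_of_nonpos ht'.1 (by linarith)
    have h1 : 1 - x ≤ t * (1 - x) := by nlinarith [ht'.2]
    apply InD_top
    push_cast
    nlinarith
  exact j1.trans j2

theorem D_path : IsPathConnected {q : ℝ × ℝ | InD 2 q.1 q.2} := by
  refine ⟨(1, 0), ?_, ?_⟩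
  · show InD 2 1 0
    rw [InD_two]
    norm_num
  · rintro ⟨x, y⟩ h
    have h' : InD 2 x y := h
    refine JoinedIn.symm ?_
    rcases le_total 0 y with hy | hy
    · exact joined_up h' hy
    · have h1 := joined_up (InD_neg.mpr h') (by linarith : 0 ≤ -y)
      have hneg : Continuous fun q : ℝ × ℝ => (q.1, -q.2) := by fun_prop
      obtain ⟨γ, hγ⟩ := h1
      refine ⟨(γ.map hneg).cast (by simp) (by simp), ?_⟩
      intro t
      exact InD_neg.mpr (hγ t)

theorem surf_path : IsPathConnected (surf 2) := by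
  rw [surf_eq]
  have h1 := D_path.image (sheet_cont 1)
  have h2 := D_path.image (sheet_cont (-1))
  refine h1.union h2 ?_
  have hD : InD 2 1 0 := by
    rw [InD_two]
    norm_num
  have hp : planar 2 1 0 = 0 := by
    rw [planar_two]
    norm_num
  refine ⟨(1, 0, 0), ⟨(1, 0), hD, ?_⟩, ⟨(1, 0), hD, ?_⟩⟩
  · show ((1 : ℝ), (0 : ℝ), 1 * Real.sqrt (-planar 2 1 0)) = _
    rw [hp]; simp
  · show ((1 : ℝ), (0 : ℝ), -1 * Real.sqrt (-planar 2 1 0)) = _
    rw [hp]; simp

end Pool.Agent.Helper427.Tri
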