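import Pool.Agent.Helper427.Tri.Model

open Set Topology Metric

set_option linter.unusedSectionVars false

namespace Pool.Agent.Helper427.Tri

variable {Z : Type*} [NormedAddCommGroup Z]

theorem handle_cont (k : ℕ) :
    Continuous fun p : ℝ × ℝ × Z => planar k p.1 p.2.1 + ‖p.2.2‖ ^ 2 := by
  have := (planar_cont k).comp (f := fun p : ℝ × ℝ × Z => (p.1, p.2.1)) (by fun_prop)
  exact this.add (by fun_prop)

theorem handle_closed (k : ℕ) : IsClosed (handle Z k) :=
  isClosed_le (handle_cont k) continuous_const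

theorem handle_InD {k : ℕ} {p : ℝ × ℝ × Z} (h : p ∈ handle Z k) : InD k p.1 p.2.1 := by
  rw [← planar_nonpos_iff]
  have : planar k p.1 p.2.1 + ‖p.2.2‖ ^ 2 ≤ 0 := h
  nlinarith [sq_nonneg ‖p.2.2‖]

theorem handle_compact [ProperSpace Z] (k : ℕ) : IsCompact (handle Z k) := by
  apply Metric.isCompact_of_isClosed_isBounded (handle_closed k)
  set R : ℝ := 4 * k + 3 with hR
  have hc : IsCompact (Icc (-R) R ×ˢ Icc (-R) R : Set (ℝ × ℝ)) := isCompact_Icc.prod isCompact_Icc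
  obtain ⟨M, hM⟩ := (hc.image (planar_cont k)).isBounded.subset_closedBall (0 : ℝ)
  have hk0 : (0 : ℝ) ≤ k := Nat.cast_nonneg k
  have hsub : handle Z k ⊆ Icc (-R) R ×ˢ (Icc (-R) R ×ˢ closedBall (0 : Z) (max M 1)) := by
    rintro ⟨x, y, z⟩ hp
    have hD := handle_InD hp
    have h1 : InD k x y := hD
    have hx : x ∈ Icc (-R) R := by
      constructor <;> nlinarith [h1.1, sq_nonneg y]
    have hy : y ∈ Icc (-R) R := by
      have : y ^ 2 ≤ (2 * k + 1) ^ 2 := by nlinarith [h1.1, sq_nonneg (x - 2 * (k + 1))]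
      constructor <;> nlinarith
    refine ⟨hx, hy, ?_⟩
    rw [mem_closedBall_zero_iff]
    have h2 : planar k x y + ‖z‖ ^ 2 ≤ 0 := hp
    have h3 : planar k x y ∈ closedBall (0 : ℝ) M := hM ⟨(x, y), ⟨hx, hy⟩, rfl⟩
    rw [mem_closedBall_zero_iff, Real.norm_eq_abs] at h3
    have h4 := neg_abs_le (planar k x y)
    have h5 : ‖z‖ ^ 2 ≤ max M 1 := by
      have := le_max_left M 1
      linarith
    have h6 : (1 : ℝ) ≤ max M 1 := le_max_right M 1
    have h7 := norm_nonneg z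
    nlinarith
  refine Bornology.IsBounded.subset ?_ hsub
  exact (Metric.isBounded_Icc _ _).prod ((Metric.isBounded_Icc _ _).prod isBounded_closedBall)

/-- upper half of the handlebody -/
def upper (Z : Type*) [NormedAddCommGroup Z] (k : ℕ) : Set (ℝ × ℝ × Z) :=
  {p | p ∈ handle Z k ∧ 0 ≤ p.2.1}

/-- the middle slice of the handlebody -/
def mid (Z : Type*) [NormedAddCommGroup Z] (k : ℕ) : Set (ℝ × ℝ × Z) :=
  {p | p ∈ handle Z k ∧ p.2.1 = 0}

theorem mem_handle_zero {k : ℕ} {x y : ℝ} (h : InD k x y) : ((x, y, 0) : ℝ × ℝ × Z) ∈ handle Z k := by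
  show planar k x y + ‖(0 : Z)‖ ^ 2 ≤ 0
  rw [norm_zero]
  have := planar_nonpos_iff.mpr h
  linarith

theorem mem_handle_smul [NormedSpace ℝ Z] {k : ℕ} {x y : ℝ} {z : Z} (h : ((x, y, z) : ℝ × ℝ × Z) ∈ handle Z k)
    {s : ℝ} (hs : 0 ≤ s) (hs1 : s ≤ 1) : ((x, y, s • z) : ℝ × ℝ × Z) ∈ handle Z k := by
  show planar k x y + ‖s • z‖ ^ 2 ≤ 0
  have h1 : planar k x y + ‖z‖ ^ 2 ≤ 0 := h
  rw [norm_smul, Real.norm_eq_abs, abs_of_nonneg hs]
  have h2 : s * ‖z‖ ≤ ‖z‖ := mul_le_of_le_one_left (norm_nonneg z) hs1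
  have h3 : 0 ≤ s * ‖z‖ := mul_nonneg hs (norm_nonneg z)
  nlinarith

open unitInterval

variable [NormedSpace ℝ Z]

/-- the projection to the plane -/
def rOne (Z : Type*) [NormedAddCommGroup Z] (k : ℕ) : C(upper Z k, upper Z k) :=
  ⟨fun p => ⟨(p.1.1, p.1.2.1, 0), mem_handle_zero (handle_InD p.2.1), p.2.2⟩, by fun_prop⟩

omit [NormedSpace ℝ Z] in
theorem upper_top {k : ℕ} (p : upper Z k) : ((p.1.1, top k p.1.1, 0) : ℝ × ℝ × Z) ∈ upper Z k :=
  ⟨mem_handle_zero (InD_top (handle_InD p.2.1).sq_le), top_nonneg _ _⟩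

/-- the projection to the top arc -/
noncomputable def rTwo (Z : Type*) [NormedAddCommGroup Z] (k : ℕ) : C(upper Z k, upper Z k) :=
  ⟨fun p => ⟨(p.1.1, top k p.1.1, 0), upper_top p⟩, by
    have := (top_cont k).comp (f := fun p : upper Z k => p.1.1) (by fun_prop)
    exact Continuous.subtype_mk ((by fun_prop : Continuous fun p : upper Z k => p.1.1).prodMk
      (this.prodMk continuous_const)) _⟩

/-- first homotopy: `z` to zero -/
theorem upper_h1 (k : ℕ) : (ContinuousMap.id (upper Z k)).Homotopic (rOne Z k) := by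
  refine ⟨⟨⟨fun q => ⟨(q.2.1.1, q.2.1.2.1, (1 - (q.1 : ℝ)) • q.2.1.2.2), ?_, q.2.2.2⟩, ?_⟩, ?_, ?_⟩⟩
  · have h := q.2.2.1
    exact mem_handle_smul (Z := Z) (k := k) (x := q.2.1.1) (y := q.2.1.2.1) (z := q.2.1.2.2) h
      (by linarith [q.1.2.2]) (by linarith [q.1.2.1])
  · fun_prop
  · intro p
    apply Subtype.ext
    simp
  · intro p
    apply Subtype.ext
    simp [rOne]

/-- second homotopy: up to the top arc -/
theorem upper_h2 (k : ℕ) : (rOne Z k).Homotopic (rTwo Z k) := by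
  refine ⟨⟨⟨fun q => ⟨(q.2.1.1, (1 - (q.1 : ℝ)) * q.2.1.2.1 + (q.1 : ℝ) * top k q.2.1.1, 0),
    ?_, ?_⟩, ?_⟩, ?_, ?_⟩⟩
  · apply mem_handle_zero
    have hD := handle_InD q.2.2.1
    have hy : 0 ≤ q.2.1.2.1 := q.2.2.2
    have hle := hD.le_top
    have h0 := q.1.2.1
    have h1 := q.1.2.2
    refine hD.up hy ?_ ?_
    · nlinarith
    · nlinarith
  · have hy : 0 ≤ q.2.1.2.1 := q.2.2.2
    have ht := top_nonneg k q.2.1.1
    have h0 := q.1.2.1
    have h1 := q.1.2.2
    have h2 : 0 ≤ 1 - (q.1 : ℝ) := by linarith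
    exact add_nonneg (mul_nonneg h2 hy) (mul_nonneg h0 ht)
  · apply Continuous.subtype_mk
    have := (top_cont k).comp (f := fun q : I × upper Z k => q.2.1.1) (by fun_prop)
    have h2 : Continuous fun q : I × upper Z k =>
        (1 - (q.1 : ℝ)) * q.2.1.2.1 + (q.1 : ℝ) * top k q.2.1.1 := by
      refine Continuous.add (by fun_prop) (Continuous.mul (by fun_prop) this)
    exact (by fun_prop : Continuous fun q : I × upper Z k => q.2.1.1).prodMk
      (h2.prodMk continuous_const)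
  · intro p
    apply Subtype.ext
    simp [rOne]
  · intro p
    apply Subtype.ext
    simp [rTwo]

theorem base_mem (k : ℕ) : ((2 * (k + 1), top k (2 * (k + 1)), 0) : ℝ × ℝ × Z) ∈ upper Z k := by
  refine ⟨mem_handle_zero (InD_top ?_), top_nonneg _ _⟩
  rw [sub_self]
  nlinarith [sq_nonneg (2 * (k : ℝ) + 1)]

/-- third homotopy: along the top arc -/
theorem upper_h3 (k : ℕ) : (rTwo Z k).Homotopic
    (ContinuousMap.const (upper Z k) ⟨_, base_mem (Z := Z) k⟩) := by
  refine ⟨⟨⟨fun q => ⟨((1 - (q.1 : ℝ)) * q.2.1.1 + (q.1 : ℝ) * (2 * (k + 1)),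
    top k ((1 - (q.1 : ℝ)) * q.2.1.1 + (q.1 : ℝ) * (2 * (k + 1))), 0),
    ?_, top_nonneg _ _⟩, ?_⟩, ?_, ?_⟩⟩
  · apply mem_handle_zero
    apply InD_top
    have hD := (handle_InD q.2.2.1).sq_le
    have h0 := q.1.2.1
    have h1 := q.1.2.2
    have e : (1 - (q.1 : ℝ)) * q.2.1.1 + (q.1 : ℝ) * (2 * (k + 1)) - 2 * (k + 1)
        = (1 - (q.1 : ℝ)) * (q.2.1.1 - 2 * (k + 1)) := by ring
    rw [e, mul_pow]
    have h2 : (1 - (q.1 : ℝ)) ^ 2 ≤ 1 := by nlinarith
    nlinarith [sq_nonneg (q.2.1.1 - 2 * ((k : ℝ) + 1))]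
  · apply Continuous.subtype_mk
    have h1 : Continuous fun q : I × upper Z k =>
        (1 - (q.1 : ℝ)) * q.2.1.1 + (q.1 : ℝ) * (2 * ((k : ℝ) + 1)) := by fun_prop
    exact h1.prodMk (((top_cont k).comp h1).prodMk continuous_const)
  · intro p
    apply Subtype.ext
    simp [rTwo]
  · intro p
    apply Subtype.ext
    simp

theorem upper_contr (k : ℕ) : (ContinuousMap.id (upper Z k)).Homotopic
    (ContinuousMap.const (upper Z k) ⟨_, base_mem (Z := Z) k⟩) :=
  (upper_h1 k).trans ((upper_h2 k).trans (upper_h3 k))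

theorem upper_closed (k : ℕ) : IsClosed (upper Z k) := by
  have : upper Z k = handle Z k ∩ {p | 0 ≤ p.2.1} := rfl
  rw [this]
  exact (handle_closed k).inter (isClosed_le continuous_const (by fun_prop))

theorem mid_closed (k : ℕ) : IsClosed (mid Z k) := by
  have : mid Z k = handle Z k ∩ {p | p.2.1 = 0} := rfl
  rw [this]
  exact (handle_closed k).inter (isClosed_eq (by fun_prop) continuous_const)

instance [ProperSpace Z] (k : ℕ) : CompactSpace (handle Z k) :=
  isCompact_iff_compactSpace.mp (handle_compact k)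

instance [ProperSpace Z] (k : ℕ) : CompactSpace (upper Z k) :=
  isCompact_iff_compactSpace.mp ((handle_compact k).of_isClosed_subset (upper_closed k)
    fun _ h => h.1)

instance [ProperSpace Z] (k : ℕ) : CompactSpace (mid Z k) :=
  isCompact_iff_compactSpace.mp ((handle_compact k).of_isClosed_subset (mid_closed k)
    fun _ h => h.1)

theorem upper_log [ProperSpace Z] {k : ℕ} (c : C(upper Z k, Circle)) : HasLog c := by
  obtain ⟨H⟩ := (upper_contr (Z := Z) k).symm
  refine HasLog.homotopy (c.comp H.toContinuousMap) (c.comp (ContinuousMap.const _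
    ⟨_, base_mem (Z := Z) k⟩)) c ?_ ?_ ?_
  · intro y
    show c (H (0, y)) = _
    rw [H.apply_zero]
    rfl
  · intro y
    show c (H (1, y)) = _
    rw [H.apply_one]
    rfl
  · exact HasLog.const (c ⟨_, base_mem k⟩)

theorem upper_lift [ProperSpace Z] {k : ℕ} (c : C(upper Z k, S2)) : HasLift c := by
  obtain ⟨H⟩ := (upper_contr (Z := Z) k).symm
  refine HasLift.homotopy (c.comp H.toContinuousMap) (c.comp (ContinuousMap.const _
    ⟨_, base_mem (Z := Z) k⟩)) c ?_ ?_ ?_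
  · intro y
    show c (H (0, y)) = _
    rw [H.apply_zero]
    rfl
  · intro y
    show c (H (1, y)) = _
    rw [H.apply_one]
    rfl
  · exact HasLift.const (c ⟨_, base_mem k⟩)

end Pool.Agent.Helper427.Tri
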