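import Pool.Agent.Helper427.Tri.Glue

open Set Topology Metric
open scoped Real

set_option linter.unusedSectionVars false

namespace Pool.Agent.Helper427.Tri

theorem const_of_int {P : Type*} [TopologicalSpace P] [PreconnectedSpace P] {f : P → ℝ}
    (hf : Continuous f) (h : ∀ x, ∃ n : ℤ, f x = 2 * π * n) (x y : P) : f x = f y := by
  choose n hn using h
  have h1 : Continuous fun x => ((n x : ℤ) : ℝ) := by
    have : (fun x => ((n x : ℤ) : ℝ)) = fun x => f x / (2 * π) := by
      funext x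
      rw [hn x]
      field_simp
    rw [this]
    exact hf.div_const _
  have h2 : Continuous n := Int.isClosedEmbedding_coe_real.isInducing.continuous_iff.mpr h1
  have h3 := PreconnectedSpace.constant inferInstance h2 (x := x) (y := y)
  rw [hn x, hn y, h3]

theorem exp_eq_iff {a b : ℝ} (h : Circle.exp a = Circle.exp b) : ∃ n : ℤ, a - b = 2 * π * n := by
  rw [Circle.exp_eq_exp] at h
  obtain ⟨m, hm⟩ := h
  exact ⟨m, by rw [hm]; ring⟩

theorem exp_two_pi_int (n : ℤ) : Circle.exp (2 * π * n) = 1 := by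
  rw [← Circle.exp_zero, Circle.exp_eq_exp]
  exact ⟨n, by ring⟩

open unitInterval

/-- winding number of a circle valued function on the interval -/
def Wind (c : C(I, Circle)) (n : ℤ) : Prop :=
  ∃ r : C(I, ℝ), (∀ t, c t = Circle.exp (r t)) ∧ r 1 - r 0 = 2 * π * n

theorem interval_log (c : C(I, Circle)) : HasLog c := by
  refine HasLog.homotopy (c.comp ⟨fun q : I × I => q.1 * q.2, by fun_prop⟩)
    (ContinuousMap.const _ (c 0)) c ?_ ?_ (HasLog.const _)
  · intro y
    show c (0 * y) = c 0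
    rw [zero_mul]
  · intro y
    show c (1 * y) = c y
    rw [one_mul]

theorem Wind.exists {c : C(I, Circle)} (h : c 0 = c 1) : ∃ n, Wind c n := by
  obtain ⟨r, hr⟩ := interval_log c
  have : Circle.exp (r 1) = Circle.exp (r 0) := by rw [← hr, ← hr, h]
  obtain ⟨n, hn⟩ := exp_eq_iff this
  exact ⟨n, r, hr, hn⟩

theorem Wind.mul {c c' : C(I, Circle)} {n n' : ℤ} (h : Wind c n) (h' : Wind c' n') :
    Wind (c * c') (n + n') := by
  obtain ⟨r, hr, e⟩ := h
  obtain ⟨r', hr', e'⟩ := h'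
  refine ⟨r + r', fun t => ?_, ?_⟩
  · show c t * c' t = Circle.exp (r t + r' t)
    rw [Circle.exp_add, hr, hr']
  · show (r 1 + r' 1) - (r 0 + r' 0) = _
    push_cast
    linarith

theorem Wind.inv {c : C(I, Circle)} {n : ℤ} (h : Wind c n) : Wind c⁻¹ (-n) := by
  obtain ⟨r, hr, e⟩ := h
  refine ⟨-r, fun t => ?_, ?_⟩
  · show (c t)⁻¹ = Circle.exp (-(r t))
    rw [Circle.exp_neg, hr]
  · show (-(r 1)) - (-(r 0)) = _
    push_cast
    linarith

theorem Wind.zpow {c : C(I, Circle)} {n : ℤ} (h : Wind c n) (k : ℤ) : Wind (c ^ k) (k * n) := by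
  obtain ⟨r, hr, e⟩ := h
  refine ⟨(k : ℝ) • r, fun t => ?_, ?_⟩
  · show (c t) ^ k = Circle.exp ((k : ℝ) * (r t))
    rw [Circle.exp_intCast_mul, hr]
  · show (k : ℝ) * r 1 - (k : ℝ) * r 0 = _
    push_cast
    rw [← mul_sub, e]
    ring

theorem Wind.unique {c : C(I, Circle)} {n n' : ℤ} (h : Wind c n) (h' : Wind c n') : n = n' := by
  obtain ⟨r, hr, e⟩ := h
  obtain ⟨r', hr', e'⟩ := h'
  have h1 : ∀ t, ∃ m : ℤ, r t - r' t = 2 * π * m := by
    intro t
    apply exp_eq_iff
    rw [← hr, ← hr']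
  have h2 := const_of_int (f := fun t => r t - r' t) (by fun_prop) h1 0 1
  have h3 : 2 * π * (n : ℝ) = 2 * π * n' := by
    linarith
  have h4 : (n : ℝ) = n' := mul_left_cancel₀ (by positivity) h3
  exact_mod_cast h4

theorem Wind.of_log {c : C(I, Circle)} {r : C(I, ℝ)} (h : ∀ t, c t = Circle.exp (r t))
    (e : r 0 = r 1) : Wind c 0 := ⟨r, h, by rw [e]; simp⟩

end Pool.Agent.Helper427.Tri
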